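import Pool.Agent.Helper34.PG.Vir3

/-!
# The virial lemma
-/

set_option autoImplicit false

namespace Pool.Agent.Helper34.PG

open Finset Filter Topology

theorem exY {q : ℝ} (hq : 0 < q) (hq1 : q < 1) {φ : ℕ → ℝ} (hφ : Summable fun n => φ n ^ 2) :
    ∃ Y : ℕ → ℝ, (∀ N, ∀ s : Finset ℕ, ∑ i ∈ s, q ^ nd i N * |φ i| ≤ Y N) ∧
      Summable fun N => Y N ^ 2 := by
  have hB : 0 < 2 / (1 - q) := div_pos two_pos (by linarith)
  have hle1 : ∀ i N, q ^ nd i N ≤ 1 := fun i N => pow_le_one₀ hq.le hq1.le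
  have hnn : ∀ i N, 0 ≤ q ^ nd i N * φ i ^ 2 := fun i N =>
    mul_nonneg (pow_nonneg hq.le _) (sq_nonneg _)
  have hsZ : ∀ N, Summable fun i => q ^ nd i N * φ i ^ 2 := fun N =>
    Summable.of_nonneg_of_le (fun i => hnn i N)
      (fun i => by have := mul_le_mul_of_nonneg_right (hle1 i N) (sq_nonneg (φ i)); linarith) hφ
  have hZ0 : ∀ N, 0 ≤ ∑' i, q ^ nd i N * φ i ^ 2 := fun N => tsum_nonneg fun i => hnn i N
  refine ⟨fun N => Real.sqrt (2 / (1 - q) * ∑' i, q ^ nd i N * φ i ^ 2), fun N s => ?_, ?_⟩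
  · apply Real.le_sqrt_of_sq_le
    have h1 := Finset.sum_mul_sq_le_sq_mul_sq s (fun i => Real.sqrt (q ^ nd i N))
      (fun i => Real.sqrt (q ^ nd i N) * |φ i|)
    have h2 : ∑ i ∈ s, Real.sqrt (q ^ nd i N) * (Real.sqrt (q ^ nd i N) * |φ i|) =
        ∑ i ∈ s, q ^ nd i N * |φ i| := sum_congr rfl fun i _ => by
      rw [← mul_assoc, Real.mul_self_sqrt (pow_nonneg hq.le _)]
    have h3 : ∑ i ∈ s, Real.sqrt (q ^ nd i N) ^ 2 = ∑ i ∈ s, q ^ nd i N :=
      sum_congr rfl fun i _ => Real.sq_sqrt (pow_nonneg hq.le _)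
    have h4 : ∑ i ∈ s, (Real.sqrt (q ^ nd i N) * |φ i|) ^ 2 = ∑ i ∈ s, q ^ nd i N * φ i ^ 2 :=
      sum_congr rfl fun i _ => by
        rw [mul_pow, Real.sq_sqrt (pow_nonneg hq.le _), sq_abs]
    rw [h2, h3, h4] at h1
    refine h1.trans (mul_le_mul (sum_nd_fin hq hq1 N s) ((hsZ N).sum_le_tsum s fun i _ => hnn i N)
      (sum_nonneg fun i _ => hnn i N) hB.le)
  · have e : (fun N => Real.sqrt (2 / (1 - q) * ∑' i, q ^ nd i N * φ i ^ 2) ^ 2) =
        fun N => 2 / (1 - q) * ∑' i, q ^ nd i N * φ i ^ 2 := by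
      funext N
      exact Real.sq_sqrt (mul_nonneg hB.le (hZ0 N))
    rw [e]
    refine Summable.mul_left _ (summable_of_sum_range_le (c := 2 / (1 - q) * ∑' i, φ i ^ 2) hZ0
      fun K => ?_)
    rw [← Summable.tsum_finsetSum fun N _ => hsZ N, ← tsum_mul_left]
    refine Summable.tsum_le_tsum (fun i => ?_) (summable_sum fun N _ => hsZ N) (hφ.mul_left _)
    rw [← sum_mul]
    exact mul_le_mul_of_nonneg_right (sum_nd_le hq hq1 i K) (sq_nonneg _)

theorem final_alg {E FY A0 Wt VS KS ES l al a a' b b' w td P C r k : ℝ} (hlow : td * E ≤ A0)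
    (hen : A0 = Wt - (-(l / 2) * VS - l ^ 2 / 2 * KS - l / 2 * ES)) (hW : Wt ≤ w * FY)
    (hv1 : l / 2 * VS ≤ al / 2 * (a * E + b * FY))
    (hk1 : l ^ 2 / 2 * KS ≤ al / 2 * (a' * E + b' * FY))
    (he1 : l / 2 * ES ≤ al / 2 * (P * C * r))
    (hlE : al * ((a + a') / 2) * E ≤ td / 2 * E)
    (h9 : al / 2 * (b * FY) + al / 2 * (b' * FY) ≤ k * FY) :
    td / 2 * E ≤ (w + k) * FY + al / 2 * P * C * r := by
  have h1 : al / 2 * (a * E + b * FY) = al / 2 * a * E + al / 2 * (b * FY) := by ring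
  have h2 : al / 2 * (a' * E + b' * FY) = al / 2 * a' * E + al / 2 * (b' * FY) := by ring
  have h3 : al * ((a + a') / 2) * E = al / 2 * a * E + al / 2 * a' * E := by ring
  have h4 : (w + k) * FY = w * FY + k * FY := by ring
  have h5 : al / 2 * (P * C * r) = al / 2 * P * C * r := by ring
  have h6 : td / 2 * E = td * E - td / 2 * E := by ring
  have h7 : -(l / 2) * VS = -(l / 2 * VS) := by ring
  linarith

theorem virial_ineq {q θ κ δ τ : ℝ} {η : ℕ → ℝ} (h : Wts q θ κ τ η) (hδ : 0 < δ) {l c : ℝ}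
    (hl1 : |l| ≤ 1)
    (hl : |l| * ((κ * (1 + θ / 2) + (Ac θ κ τ * Bc q θ / 2 + κ / 2 * (1 + Bc q θ))) / 2) ≤
      τ * δ / 2)
    (hc : |c| ≤ 1 - δ) {φ v hh : ℕ → ℝ} {S : ℕ → ℕ → ℕ → ℝ} {C : ℝ}
    (hrec : ∀ n, φ (n + 1) + psi φ n = 2 * c * φ n + (-(l / 2) * (v n * φ n + hh n)))
    (hS : ∀ M n, |hh n - l * ∑ m ∈ range (n + M), S M n m * φ m| ≤ C * q ^ M)
    (hK : ∀ M, Ker q κ η (S M)) (hv : ∀ n, |v n| ≤ κ * η n) {N : ℕ} {Y : ℝ}
    (hY : ∀ s : Finset ℕ, ∑ i ∈ s, q ^ nd i N * |φ i| ≤ Y) :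
    τ * δ / 2 * En τ η φ N ≤
      (2 * (1 + q⁻¹ ^ 2) + 5 * κ * q⁻¹) * (Fw τ η N * Y ^ 2) := by
  have hF := F_pos h.t0 h.e0
  have hG := G_pos h.t0 h.e0
  have hk := h.k0
  have hY0 := Y_nonneg hY
  have hE := En_nonneg h φ N
  have hqi : 0 < q⁻¹ := inv_pos.2 h.q0
  have hFY : 0 ≤ Fw τ η N * Y ^ 2 := mul_nonneg (hF N).le (sq_nonneg _)
  have hc1 : |c| ≤ 1 := by linarith
  have hl2 : l ^ 2 ≤ |l| := by
    rw [← sq_abs]
    have := mul_le_mul_of_nonneg_left hl1 (abs_nonneg l)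
    nlinarith
  set P : ℝ := ∑ n ∈ range (N + 1), Fw τ η n * |φ (n + 1) - psi φ n| with hP
  have hP0 : 0 ≤ P := sum_nonneg fun n _ => mul_nonneg (hF n).le (abs_nonneg _)
  -- lower bound of the left side
  have hlow : τ * δ * En τ η φ N ≤ φ 0 ^ 2 + ∑ n ∈ range N, τ * Gw τ η n *
      (φ (n + 1) ^ 2 + φ n ^ 2 - 2 * c * φ n * φ (n + 1)) := by
    have h1 : τ * δ * En τ η φ N = ∑ n ∈ range N, τ * Gw τ η n *
        (δ * (φ n ^ 2 + φ (n + 1) ^ 2)) := by
      unfold En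
      rw [mul_sum]
      exact sum_congr rfl fun n _ => by ring
    rw [h1]
    have h2 : ∑ n ∈ range N, τ * Gw τ η n * (δ * (φ n ^ 2 + φ (n + 1) ^ 2)) ≤
        ∑ n ∈ range N, τ * Gw τ η n *
          (φ (n + 1) ^ 2 + φ n ^ 2 - 2 * c * φ n * φ (n + 1)) := by
      refine sum_le_sum fun n _ => mul_le_mul_of_nonneg_left ?_ (mul_nonneg h.t0.le (hG n).le)
      have h3 : 2 * c * φ n * φ (n + 1) ≤ |c| * (φ n ^ 2 + φ (n + 1) ^ 2) := by
        have h4 : c * (φ n * φ (n + 1)) ≤ |c| * |φ n * φ (n + 1)| := by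
          rw [← abs_mul]; exact le_abs_self _
        have h5 : |φ n * φ (n + 1)| ≤ (φ n ^ 2 + φ (n + 1) ^ 2) / 2 := by
          rw [abs_le]
          constructor <;> nlinarith [sq_nonneg (φ n + φ (n + 1)), sq_nonneg (φ n - φ (n + 1))]
        have h6 := mul_le_mul_of_nonneg_left h5 (abs_nonneg c)
        linarith
      have h7 := mul_le_mul_of_nonneg_right hc (by positivity : 0 ≤ φ n ^ 2 + φ (n + 1) ^ 2)
      linarith
    have := sq_nonneg (φ 0)
    linarith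
  -- the boundary term of the energy
  have hW : Fw τ η N * (φ (N + 1) ^ 2 + φ N ^ 2 - 2 * c * φ N * φ (N + 1)) ≤
      2 * (1 + q⁻¹ ^ 2) * (Fw τ η N * Y ^ 2) := by
    have h1 : -(2 * c * φ N * φ (N + 1)) ≤ φ N ^ 2 + φ (N + 1) ^ 2 := by
      have h4 : -(c * (φ N * φ (N + 1))) ≤ |c| * |φ N * φ (N + 1)| := by
        rw [← abs_mul]; exact neg_le_abs _
      have h5 : |φ N * φ (N + 1)| ≤ (φ N ^ 2 + φ (N + 1) ^ 2) / 2 := by
        rw [abs_le]
        constructor <;> nlinarith [sq_nonneg (φ N + φ (N + 1)), sq_nonneg (φ N - φ (N + 1))]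
      have h6 := mul_le_mul_of_nonneg_right hc1 (abs_nonneg (φ N * φ (N + 1)))
      linarith
    have h2 : φ N ^ 2 ≤ Y ^ 2 := by
      rw [← sq_abs]
      exact pow_le_pow_left₀ (abs_nonneg _) (Y_N hY) 2
    have h3 : φ (N + 1) ^ 2 ≤ q⁻¹ ^ 2 * Y ^ 2 := by
      rw [← sq_abs, ← mul_pow]
      exact pow_le_pow_left₀ (abs_nonneg _) (Y_N1 h.q0 h.q1 hY) 2
    have h7 := mul_le_mul_of_nonneg_left (by linarith : φ (N + 1) ^ 2 + φ N ^ 2 -
      2 * c * φ N * φ (N + 1) ≤ 2 * (Y ^ 2 + q⁻¹ ^ 2 * Y ^ 2)) (hF N).le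
    linarith
  -- the inequality for each `M`
  have hM : ∀ M, N + 1 ≤ M → τ * δ / 2 * En τ η φ N ≤
      (2 * (1 + q⁻¹ ^ 2) + 5 * κ * q⁻¹) * (Fw τ η N * Y ^ 2) + |l| / 2 * P * C * q ^ M := by
    intro M hNM
    set t : ℕ → ℝ := fun n => ∑ m ∈ Ico (N + 1) (n + M), S M n m * φ m with ht
    set e : ℕ → ℝ := fun n => hh n - l * ∑ m ∈ range (n + M), S M n m * φ m with he
    have hhh : ∀ n ∈ range (N + 1), hh n =
        l * (∑ m ∈ range (N + 1), S M n m * φ m + t n) + e n := by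
      intro n _
      have : ∑ m ∈ range (n + M), S M n m * φ m =
          ∑ m ∈ range (N + 1), S M n m * φ m + t n := by
        rw [ht]
        simp only
        rw [sum_range_add_sum_Ico _ (by omega : N + 1 ≤ n + M)]
      rw [← this, he]
      ring
    have htb : ∀ n ∈ range (N + 1), |t n| ≤ κ * q ^ nd n N * Y := by
      intro n hn
      have hn' := mem_range.1 hn
      rw [ht]
      refine (abs_sum_le_sum_abs _ _).trans ?_
      have h1 : ∀ m ∈ Ico (N + 1) (n + M), |S M n m * φ m| ≤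
          κ * q ^ nd n N * (q ^ nd m N * |φ m|) := by
        intro m hm
        have hm' := mem_Ico.1 hm
        rw [abs_mul]
        have h2 := (hK M).le n m
        have h3 : nd n m = nd n N + nd m N := by unfold nd; omega
        rw [h3, pow_add] at h2
        have h4 := mul_le_mul_of_nonneg_right h2 (abs_nonneg (φ m))
        linarith
      refine (sum_le_sum h1).trans ?_
      rw [← mul_sum]
      exact mul_le_mul_of_nonneg_left (hY _) (mul_nonneg hk.le (pow_nonneg h.q0.le _))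
    have hen := energy τ η c φ (fun n => -(l / 2) * (v n * φ n + hh n)) hrec N
    have hsplit : ∑ n ∈ range (N + 1), Fw τ η n * (-(l / 2) * (v n * φ n + hh n)) *
        (φ (n + 1) - psi φ n) =
        -(l / 2) * ∑ n ∈ range (N + 1), Fw τ η n * (v n * φ n) * (φ (n + 1) - psi φ n) -
        l ^ 2 / 2 * ∑ n ∈ range (N + 1), Fw τ η n *
          (∑ m ∈ range (N + 1), S M n m * φ m + t n) * (φ (n + 1) - psi φ n) -
        l / 2 * ∑ n ∈ range (N + 1), Fw τ η n * e n * (φ (n + 1) - psi φ n) := by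
      rw [mul_sum, mul_sum, mul_sum, ← sum_sub_distrib, ← sum_sub_distrib]
      refine sum_congr rfl fun n hn => ?_
      rw [hhh n hn]
      ring
    rw [hsplit] at hen
    have hV := V_le h hv hY
    have hKl := K_le h (hK M) hY htb
    have hErr : |∑ n ∈ range (N + 1), Fw τ η n * e n * (φ (n + 1) - psi φ n)| ≤
        P * C * q ^ M := by
      refine (abs_sum_le_sum_abs _ _).trans ?_
      rw [hP, sum_mul, sum_mul]
      refine sum_le_sum fun n _ => ?_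
      rw [abs_mul, abs_mul, abs_of_pos (hF n)]
      have h1 := mul_le_mul_of_nonneg_left (hS M n)
        (mul_nonneg (hF n).le (abs_nonneg (φ (n + 1) - psi φ n)))
      have h2 : |e n| = |hh n - l * ∑ m ∈ range (n + M), S M n m * φ m| := rfl
      rw [h2]
      linarith
    set VS := ∑ n ∈ range (N + 1), Fw τ η n * (v n * φ n) * (φ (n + 1) - psi φ n) with hVS
    set KS := ∑ n ∈ range (N + 1), Fw τ η n *
          (∑ m ∈ range (N + 1), S M n m * φ m + t n) * (φ (n + 1) - psi φ n) with hKS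
    set ES := ∑ n ∈ range (N + 1), Fw τ η n * e n * (φ (n + 1) - psi φ n) with hES
    have hv1 : l / 2 * VS ≤ |l| / 2 * (κ * (1 + θ / 2) * En τ η φ N +
        6 * κ * q⁻¹ * (Fw τ η N * Y ^ 2)) := by
      have h1 : l / 2 * VS ≤ |l| / 2 * |VS| := by
        have : l * VS ≤ |l| * |VS| := by rw [← abs_mul]; exact le_abs_self _
        linarith
      exact h1.trans (mul_le_mul_of_nonneg_left hV (by positivity))
    have hk1 : l ^ 2 / 2 * KS ≤ |l| / 2 * ((Ac θ κ τ * Bc q θ / 2 + κ / 2 * (1 + Bc q θ)) *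
        En τ η φ N + 4 * κ * q⁻¹ * (Fw τ η N * Y ^ 2)) := by
      have h1 : l ^ 2 / 2 * KS ≤ l ^ 2 / 2 * |KS| :=
        mul_le_mul_of_nonneg_left (le_abs_self _) (by positivity)
      have h2 : l ^ 2 / 2 * |KS| ≤ |l| / 2 * |KS| :=
        mul_le_mul_of_nonneg_right (by linarith) (abs_nonneg _)
      exact h1.trans (h2.trans (mul_le_mul_of_nonneg_left hKl (by positivity)))
    have he1 : l / 2 * ES ≤ |l| / 2 * (P * C * q ^ M) := by
      have h1 : l / 2 * ES ≤ |l| / 2 * |ES| := by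
        have : l * ES ≤ |l| * |ES| := by rw [← abs_mul]; exact le_abs_self _
        linarith
      exact h1.trans (mul_le_mul_of_nonneg_left hErr (by positivity))
    have hlE := mul_le_mul_of_nonneg_right hl hE
    have h9 : |l| / 2 * (6 * κ * q⁻¹ * (Fw τ η N * Y ^ 2)) +
        |l| / 2 * (4 * κ * q⁻¹ * (Fw τ η N * Y ^ 2)) ≤ 5 * κ * q⁻¹ * (Fw τ η N * Y ^ 2) := by
      have h10 : 0 ≤ 5 * κ * q⁻¹ * (Fw τ η N * Y ^ 2) :=
        mul_nonneg (mul_nonneg (by linarith) hqi.le) hFY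
      have h11 := mul_le_mul_of_nonneg_right hl1 h10
      linarith
    exact final_alg hlow hen hW hv1 hk1 he1 hlE h9
  -- the limit
  have hlim : Tendsto (fun M : ℕ => (2 * (1 + q⁻¹ ^ 2) + 5 * κ * q⁻¹) * (Fw τ η N * Y ^ 2) +
      |l| / 2 * P * C * q ^ M) atTop (𝓝 ((2 * (1 + q⁻¹ ^ 2) + 5 * κ * q⁻¹) *
        (Fw τ η N * Y ^ 2) + |l| / 2 * P * C * 0)) :=
    tendsto_const_nhds.add ((tendsto_pow_atTop_nhds_zero_of_lt_one h.q0.le h.q1).const_mul _)
  rw [mul_zero, add_zero] at hlim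
  exact ge_of_tendsto hlim (eventually_atTop.2 ⟨N + 1, fun M hM' => hM M hM'⟩)

theorem virial : Pool.Agent.Helper32.PG.S_Virial := by
  intro q θ κ δ τ hq hq1 hθ hqθ hκ hδ hτ
  set C1 : ℝ := (κ * (1 + θ / 2) + (Ac θ κ τ * Bc q θ / 2 + κ / 2 * (1 + Bc q θ))) / 2 with hC1
  have hA : 0 < Ac θ κ τ := by
    have h1 : 0 < θ - 1 := by linarith
    have := div_pos (mul_pos hτ (by linarith : 0 < θ)) h1
    exact mul_pos hκ (by linarith)
  have hB : 0 < Bc q θ := div_pos two_pos (by linarith)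
  have hC1p : 0 < C1 := by
    rw [hC1]
    have h1 : 0 < κ * (1 + θ / 2) := mul_pos hκ (by linarith)
    have h2 : 0 < Ac θ κ τ * Bc q θ := mul_pos hA hB
    have h3 : 0 < κ / 2 * (1 + Bc q θ) := mul_pos (by linarith) (by linarith)
    linarith
  refine ⟨min 1 (τ * δ / 2 / C1), lt_min one_pos (div_pos (by positivity) hC1p), ?_⟩
  intro l c hl hc φ v hh η S C hφ hrec hrec0 hS hsym hb1 hb2 hb3 he0 he3 hv hqe he1 he2 he4 hprod
  have h : Wts q θ κ τ η := ⟨hq, hq1, hθ, hqθ, hκ, hτ, he0, he3, hqe, he1, he2, he4⟩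
  have hK : ∀ M, Ker q κ η (S M) := fun M => ⟨hsym M, hb1 M, hb2 M, hb3 M⟩
  have hl1 : |l| ≤ 1 := hl.trans (min_le_left _ _)
  have hl2 : |l| * C1 ≤ τ * δ / 2 := by
    have := hl.trans (min_le_right _ _)
    rwa [le_div_iff₀ hC1p] at this
  have hrec' : ∀ n, φ (n + 1) + psi φ n = 2 * c * φ n + (-(l / 2) * (v n * φ n + hh n)) := by
    intro n
    cases n with
    | zero =>
      simp only [psi]
      linarith
    | succ n =>
      simp only [psi]
      have := hrec n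
      linarith
  obtain ⟨Y, hY1, hY2⟩ := exY hq hq1 hφ
  have hmain : ∀ N, τ * δ / 2 * En τ η φ N ≤
      (2 * (1 + q⁻¹ ^ 2) + 5 * κ * q⁻¹) * (Fw τ η N * Y N ^ 2) := fun N =>
    virial_ineq h hδ hl1 hl2 hc hrec' hS hK hv (hY1 N)
  by_contra hcon
  push Not at hcon
  obtain ⟨k, hk⟩ := hcon
  have hE : 0 < En τ η φ (k + 1) := by
    unfold En
    rw [sum_range_succ]
    have h1 := En_nonneg h φ k
    unfold En at h1
    have h2 : 0 < Gw τ η k * (φ k ^ 2 + φ (k + 1) ^ 2) :=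
      mul_pos (G_pos hτ he0 k) (by have := sq_nonneg (φ (k + 1)); positivity)
    linarith
  set ε : ℝ := τ * δ / 2 * En τ η φ (k + 1) with hε
  have hεp : 0 < ε := mul_pos (by positivity) hE
  set C2 : ℝ := 2 * (1 + q⁻¹ ^ 2) + 5 * κ * q⁻¹ with hC2
  have hC2p : 0 < C2 := by
    have := inv_pos.2 hq
    positivity
  have hCp : 0 < C := by
    have := hprod 0
    simp only [range_zero, prod_empty, Nat.cast_zero, zero_add, mul_one] at this
    linarith
  have hbd : ∀ N, 1 / (((N + (k + 1) : ℕ) : ℝ) + 1) ≤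
      C2 * C / ε * Y (N + (k + 1)) ^ 2 := by
    intro N
    set K := N + (k + 1) with hK'
    have h1 := hmain K
    have h2 : ε ≤ τ * δ / 2 * En τ η φ K :=
      mul_le_mul_of_nonneg_left (En_mono h φ (by omega)) (by positivity)
    have h3 : Fw τ η K ≤ C * ((K : ℝ) + 1) := hprod K
    have h4 : C2 * (Fw τ η K * Y K ^ 2) ≤ C2 * (C * ((K : ℝ) + 1) * Y K ^ 2) :=
      mul_le_mul_of_nonneg_left (mul_le_mul_of_nonneg_right h3 (sq_nonneg _)) hC2p.le
    have h5 : (0 : ℝ) < (K : ℝ) + 1 := by positivity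
    rw [div_le_iff₀ h5]
    have h6 : ε ≤ C2 * (C * ((K : ℝ) + 1) * Y K ^ 2) := h2.trans (h1.trans h4)
    have h7 : C2 * C / ε * Y K ^ 2 * ((K : ℝ) + 1) =
        C2 * (C * ((K : ℝ) + 1) * Y K ^ 2) / ε := by ring
    rw [h7, le_div_iff₀ hεp]
    linarith
  have hsum : Summable fun N : ℕ => C2 * C / ε * Y (N + (k + 1)) ^ 2 :=
    ((summable_nat_add_iff (k + 1)).2 hY2).mul_left _
  have hs1 : Summable fun N : ℕ => 1 / (((N + (k + 1) : ℕ) : ℝ) + 1) :=
    Summable.of_nonneg_of_le (fun N => by positivity) hbd hsum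
  have hs2 : Summable fun N : ℕ => 1 / ((N + (k + 2) : ℕ) : ℝ) := by
    refine hs1.congr fun N => ?_
    push_cast
    congr 1
    ring
  exact Real.not_summable_one_div_natCast ((summable_nat_add_iff (k + 2)).1 hs2)

end Pool.Agent.Helper34.PG
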