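import Pool.Agent.Helper34.PG.Vc4
import Pool.Agent.Helper32.PG.Stm6

/-!
# The quantitative virial lemma with sources
-/

set_option autoImplicit false

namespace Pool.Agent.Helper34.PG

open Finset

theorem avg4' {L Z F U Ca B : ℝ} (R : ℕ) (hR : 1 ≤ R) (Y : ℕ → ℝ)
    (hF : 0 ≤ F) (hCa : 0 ≤ Ca)
    (hY : ∀ K, ∑ N ∈ range K, Y N ^ 2 ≤ B * U)
    (hmain : ∀ N, R ≤ N → N < 2 * R → L ≤ Ca * (F * Y N ^ 2) + Z) :
    L ≤ Ca * (F * (B * U)) * (1 / R) + Z := by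
  have hR0 : (0 : ℝ) < R := by exact_mod_cast hR
  have h1 : ∑ N ∈ Ico R (2 * R), L ≤ ∑ N ∈ Ico R (2 * R), (Ca * F * Y N ^ 2 + Z) := by
    refine sum_le_sum fun N hN => ?_
    have hN' := mem_Ico.1 hN
    have := hmain N hN'.1 hN'.2
    linarith
  have h2 : 2 * R - R = R := by omega
  rw [sum_add_distrib, ← mul_sum, sum_const, sum_const, Nat.card_Ico, nsmul_eq_mul,
    nsmul_eq_mul, h2] at h1
  have h3 : ∑ N ∈ Ico R (2 * R), Y N ^ 2 ≤ B * U := by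
    refine le_trans (sum_le_sum_of_subset_of_nonneg (fun i hi => ?_) fun i _ _ => sq_nonneg _)
      (hY (2 * R))
    exact mem_range.2 (mem_Ico.1 hi).2
  have h4 := mul_le_mul_of_nonneg_left h3 (mul_nonneg hCa hF)
  have h5 : (R : ℝ) * L ≤ (R : ℝ) * (Ca * (F * (B * U)) * (1 / R) + Z) := by
    have h6 : (R : ℝ) * (Ca * (F * (B * U)) * (1 / R) + Z) = Ca * F * (B * U) + R * Z := by
      field_simp
    rw [h6]
    linarith
  exact le_of_mul_le_mul_left h5 hR0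

theorem avg4 {E0 D m F U Ca Cb Cc B G y : ℝ} (R : ℕ) (hR : 1 ≤ R) (Y : ℕ → ℝ)
    (hF : 0 ≤ F) (hCa : 0 ≤ Ca)
    (hY : ∀ K, ∑ N ∈ range K, Y N ^ 2 ≤ B * U)
    (hmain : ∀ N, R ≤ N → N < 2 * R → D + m * E0 ≤
      Ca * (F * Y N ^ 2) + Cb * (y * (F * U)) + Cc * G ^ 2) :
    D + m * E0 ≤ Ca * (F * (B * U)) * (1 / R) + Cb * (y * (F * U)) + Cc * G ^ 2 := by
  have h := avg4' R hR Y hF hCa hY (L := D + m * E0) (Z := Cb * (y * (F * U)) + Cc * G ^ 2)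
    (fun N h1 h2 => by have := hmain N h1 h2; linarith)
  linarith

theorem virial4 : Pool.Agent.Helper32.PG.S_Virial4 := by
  intro q θ κ δ τ hq hq1 hθ hqθ hκ hδ hτ
  have hA : 0 < Ac θ κ τ := by
    have h1 : 0 < θ - 1 := by linarith
    have := div_pos (mul_pos hτ (by linarith : 0 < θ)) h1
    exact mul_pos hκ (by linarith)
  have hB : 0 < Bc q θ := div_pos two_pos (by linarith)
  have hCl : 0 < Cl4 q θ κ τ := by
    unfold Cl4
    have h1 : 0 < κ * (1 + θ / 2) := mul_pos hκ (by linarith)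
    have h2 : 0 < Ac θ κ τ * Bc q θ := mul_pos hA hB
    have h3 : 0 < κ / 2 * (1 + Bc q θ) := mul_pos (by linarith) (by linarith)
    have h4 : 0 < κ * (1 + Bc q θ) := mul_pos hκ (by linarith)
    linarith
  have hqi : 0 < q⁻¹ := inv_pos.2 hq
  have hτδ : 0 < τ * δ := mul_pos hτ hδ
  have hCa : 0 < Ca4 q κ δ τ := by
    unfold Ca4
    positivity
  have hb : 0 < 2 / (1 - q) := div_pos two_pos (by linarith)
  have hCb : 0 < Cb4 q κ := by
    unfold Cb4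
    have := mul_pos hκ hb
    linarith
  have hCc : 0 < Bc q θ / (τ * δ / 4) := div_pos hB (by linarith)
  set μ : ℝ := min δ (τ * δ / 2) with hμ
  have hμ0 : 0 < μ := lt_min hδ (by linarith)
  set K : ℝ := Ca4 q κ δ τ * (2 / (1 - q)) ^ 2 + Cb4 q κ + Bc q θ / (τ * δ / 4) with hKd
  have hK0 : 0 < K := by
    have := mul_pos hCa (pow_pos hb 2)
    linarith
  refine ⟨min 1 (τ * δ / 4 / Cl4 q θ κ τ), lt_min one_pos (div_pos (by linarith) hCl),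
    K / μ, div_pos hK0 hμ0, ?_⟩
  intro l c y hl hc hy hy1 φ hh g v η S C U G hG0 hU hrec hg hS hsym hb1 hbi hb2 hb3 he0 he3 hv
    hqe he1 he2 he4 R hR
  have h : Wts q θ κ τ η := ⟨hq, hq1, hθ, hqθ, hκ, hτ, he0, he3, hqe, he1, he2, he4⟩
  have hK : ∀ M, KerC q κ y η (S M) := fun M => ⟨hsym M, hb1 M, hbi M, hb2 M, hb3 M⟩
  have hl1 : |l| ≤ 1 := hl.trans (min_le_left _ _)
  have hl2 : |l| * Cl4 q θ κ τ ≤ τ * δ / 4 := by
    have := hl.trans (min_le_right _ _)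
    rwa [le_div_iff₀ hCl] at this
  have hU0 : 0 ≤ U := by simpa using hU 0
  obtain ⟨Y, hY1, hY2⟩ := exY' hq hq1 (a := fun i => ‖φ i‖) hU
  have hF := F_pos h.t0 h.e0
  have hmain : ∀ N, R ≤ N → N < 2 * R →
      δ * (‖φ 0‖ ^ 2 + ‖φ 1‖ ^ 2) + τ * δ / 2 * En τ η (fun i => ‖φ i‖) R ≤
      Ca4 q κ δ τ * (Fw τ η (2 * R) * Y N ^ 2) + Cb4 q κ * (y * (Fw τ η (2 * R) * U)) +
        Bc q θ / (τ * δ / 4) * G ^ 2 := by
    intro N hN1 hN2
    have h1 := ineq4 h hδ hl1 hl2 hc hy hG0 hU hrec hg hS hK hv (hR.trans hN1) (hY1 N)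
    have h2 : τ * δ / 2 * En τ η (fun i => ‖φ i‖) R ≤ τ * δ / 2 * En τ η (fun i => ‖φ i‖) N :=
      mul_le_mul_of_nonneg_left (En_mono h _ hN1) (by linarith)
    have h3 : Fw τ η N ≤ Fw τ η (2 * R) := F_mono h.t0 h.e0 hN2.le
    have h4 : Ca4 q κ δ τ * (Fw τ η N * Y N ^ 2) ≤ Ca4 q κ δ τ * (Fw τ η (2 * R) * Y N ^ 2) :=
      mul_le_mul_of_nonneg_left (mul_le_mul_of_nonneg_right h3 (sq_nonneg _)) hCa.le
    have h5 : Cb4 q κ * (y * (Fw τ η N * U)) ≤ Cb4 q κ * (y * (Fw τ η (2 * R) * U)) :=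
      mul_le_mul_of_nonneg_left (mul_le_mul_of_nonneg_left
        (mul_le_mul_of_nonneg_right h3 hU0) hy) hCb.le
    linarith
  have hav := avg4 R hR Y (hF (2 * R)).le hCa.le hY2 hmain
  have hE : ∑ n ∈ range R, η n * ‖φ n‖ ^ 2 ≤ En τ η (fun i => ‖φ i‖) R := by
    unfold En
    refine sum_le_sum fun n _ => ?_
    have h1 : η n ≤ Gw τ η n := by
      unfold Gw
      have := mul_le_mul_of_nonneg_left (one_le_F h n) (he0 n).le
      linarith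
    have h2 := mul_le_mul_of_nonneg_right h1 (sq_nonneg ‖φ n‖)
    have h3 := mul_nonneg (G_pos hτ he0 n).le (sq_nonneg ‖φ (n + 1)‖)
    linarith
  have hE0 := En_nonneg h (fun i => ‖φ i‖) R
  have hFU : 0 ≤ Fw τ η (2 * R) * U := mul_nonneg (hF _).le hU0
  have hR0 : (0 : ℝ) < R := by exact_mod_cast hR
  have hleft : μ * (‖φ 0‖ ^ 2 + ‖φ 1‖ ^ 2 + ∑ n ∈ range R, η n * ‖φ n‖ ^ 2) ≤
      δ * (‖φ 0‖ ^ 2 + ‖φ 1‖ ^ 2) + τ * δ / 2 * En τ η (fun i => ‖φ i‖) R := by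
    have h1 : μ ≤ δ := min_le_left _ _
    have h2 : μ ≤ τ * δ / 2 := min_le_right _ _
    have h3 := mul_le_mul_of_nonneg_right h1
      (add_nonneg (sq_nonneg ‖φ 0‖) (sq_nonneg ‖φ 1‖))
    have h4 := mul_le_mul_of_nonneg_right h2 hE0
    have h5 := mul_le_mul_of_nonneg_left hE hμ0.le
    linarith
  have hright : Ca4 q κ δ τ * (Fw τ η (2 * R) * ((2 / (1 - q)) ^ 2 * U)) * (1 / R) +
      Cb4 q κ * (y * (Fw τ η (2 * R) * U)) + Bc q θ / (τ * δ / 4) * G ^ 2 ≤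
      K * ((∏ n ∈ range (2 * R), (1 + τ * η n)) * (1 / R + y) * U + G ^ 2) := by
    have e1 : (∏ n ∈ range (2 * R), (1 + τ * η n)) = Fw τ η (2 * R) := rfl
    rw [e1]
    set X := Fw τ η (2 * R) * U with hX
    have hR1 : 0 ≤ 1 / (R : ℝ) := by positivity
    have h1 : Ca4 q κ δ τ * (Fw τ η (2 * R) * ((2 / (1 - q)) ^ 2 * U)) * (1 / R) =
        Ca4 q κ δ τ * (2 / (1 - q)) ^ 2 * (X * (1 / R)) := by
      rw [hX]; ring
    have h2 : K * (Fw τ η (2 * R) * (1 / R + y) * U + G ^ 2) =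
        K * (X * (1 / R)) + K * (y * X) + K * G ^ 2 := by
      rw [hX]; ring
    rw [h1, h2]
    have hp := mul_pos hCa (pow_pos hb 2)
    have h3 : Ca4 q κ δ τ * (2 / (1 - q)) ^ 2 * (X * (1 / R)) ≤ K * (X * (1 / R)) :=
      mul_le_mul_of_nonneg_right (by linarith) (mul_nonneg hFU hR1)
    have h4 : Cb4 q κ * (y * X) ≤ K * (y * X) :=
      mul_le_mul_of_nonneg_right (by linarith) (mul_nonneg hy hFU)
    have h5 : Bc q θ / (τ * δ / 4) * G ^ 2 ≤ K * G ^ 2 :=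
      mul_le_mul_of_nonneg_right (by linarith) (sq_nonneg _)
    linarith
  have hall := hleft.trans (hav.trans hright)
  rw [div_mul_eq_mul_div, le_div_iff₀ hμ0]
  linarith

end Pool.Agent.Helper34.PG
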