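import Pool.Agent.Helper34.PG.Virial

/-!
# The quantitative virial lemma, complex energies: kernels and the bilinear form
-/

set_option autoImplicit false

namespace Pool.Agent.Helper34.PG

open Finset ComplexConjugate

variable {q θ κ τ Y : ℝ} {η : ℕ → ℝ} {a : ℕ → ℝ} {N : ℕ}

/-- the Toeplitz majorant -/
theorem toep (h : Wts q θ κ τ η) : Ker q κ η (fun n m => κ * q ^ nd n m) where
  symm n m := by rw [nd_comm]
  b1 n k := by
    have : nd n (n + k) = k := by unfold nd; omega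
    rw [this, abs_of_nonneg (mul_nonneg h.k0.le (pow_nonneg h.q0.le _))]
  b2 n k := by
    have h1 : nd n (n + k) = k := by unfold nd; omega
    have h2 : nd (n + 1) (n + 1 + k) = k := by unfold nd; omega
    rw [h1, h2, sub_self, abs_zero]
    exact mul_nonneg (mul_nonneg h.k0.le (h.e0 _).le) (pow_nonneg h.q0.le _)
  b3 n k := by
    have h1 : nd n (n + k) = k := by unfold nd; omega
    have h2 : nd (n + 1) (n + 1 + k) = k := by unfold nd; omega
    rw [h1, h2, sub_self, abs_zero]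
    exact mul_nonneg (mul_nonneg h.k0.le (h.e0 _).le) (pow_nonneg h.q0.le _)

/-- the hypotheses on the complex kernel -/
structure KerC (q κ y : ℝ) (η : ℕ → ℝ) (T : ℕ → ℕ → ℂ) : Prop where
  symm : ∀ n m, T n m = T m n
  b1 : ∀ n k, ‖T n (n + k)‖ ≤ κ * q ^ k
  bi : ∀ n k, |(T n (n + k)).im| ≤ κ * y * q ^ k
  b2 : ∀ n k, ‖T n (n + k) - T (n + 1) (n + 1 + k)‖ ≤ κ * η n * q ^ k
  b3 : ∀ n k, ‖T n (n + k) - T (n + 1) (n + 1 + k)‖ ≤ κ * η (n + k) * q ^ k

section kernel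

variable {y : ℝ} {T : ℕ → ℕ → ℂ}

theorem KerC.le (hT : KerC q κ y η T) (n m : ℕ) : ‖T n m‖ ≤ κ * q ^ nd n m := by
  rcases le_total n m with h | h
  · obtain ⟨k, rfl⟩ := Nat.exists_eq_add_of_le h
    have : nd n (n + k) = k := by unfold nd; omega
    rw [this]
    exact hT.b1 n k
  · obtain ⟨k, rfl⟩ := Nat.exists_eq_add_of_le h
    have : nd (m + k) m = k := by unfold nd; omega
    rw [this, hT.symm]
    exact hT.b1 m k

theorem KerC.im_le (hT : KerC q κ y η T) (n m : ℕ) : |(T n m).im| ≤ κ * y * q ^ nd n m := by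
  rcases le_total n m with h | h
  · obtain ⟨k, rfl⟩ := Nat.exists_eq_add_of_le h
    have : nd n (n + k) = k := by unfold nd; omega
    rw [this]
    exact hT.bi n k
  · obtain ⟨k, rfl⟩ := Nat.exists_eq_add_of_le h
    have : nd (m + k) m = k := by unfold nd; omega
    rw [this, hT.symm]
    exact hT.bi m k

theorem KerC.diff (hT : KerC q κ y η T) (n m : ℕ) :
    ‖T n m - T (n + 1) (m + 1)‖ ≤ κ * η n * q ^ nd n m := by
  rcases le_total n m with h | h
  · obtain ⟨k, rfl⟩ := Nat.exists_eq_add_of_le h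
    have : nd n (n + k) = k := by unfold nd; omega
    rw [this, show n + k + 1 = n + 1 + k by ring]
    exact hT.b2 n k
  · obtain ⟨k, rfl⟩ := Nat.exists_eq_add_of_le h
    have : nd (m + k) m = k := by unfold nd; omega
    rw [this, hT.symm, hT.symm (m + k + 1), show m + k + 1 = m + 1 + k by ring]
    exact hT.b3 m k

theorem D_leC (h : Wts q θ κ τ η) (hT : KerC q κ y η T) (n m : ℕ) :
    ‖(Fw τ η n : ℂ) * T n m - (Fw τ η (m + 1) : ℂ) * conj (T (n + 1) (m + 1))‖ ≤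
      Ac θ κ τ * Gw τ η n * (q * θ) ^ nd n m + 2 * κ * y * (Fw τ η (m + 1) * q ^ nd n m) := by
  have hF := F_pos h.t0 h.e0 n
  have hF' := F_pos h.t0 h.e0 (m + 1)
  have hG := G_pos h.t0 h.e0 n
  have hθ : 0 < θ := by have := h.th; linarith
  have hθ1 : 0 < θ - 1 := by have := h.th; linarith
  have e : (Fw τ η n : ℂ) * T n m - (Fw τ η (m + 1) : ℂ) * conj (T (n + 1) (m + 1)) =
      (Fw τ η n : ℂ) * (T n m - T (n + 1) (m + 1)) -
        ((Fw τ η (m + 1) - Fw τ η n : ℝ) : ℂ) * T (n + 1) (m + 1) +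
      (Fw τ η (m + 1) : ℂ) * (T (n + 1) (m + 1) - conj (T (n + 1) (m + 1))) := by
    push_cast
    ring
  have h1 : ‖(Fw τ η n : ℂ) * (T n m - T (n + 1) (m + 1))‖ ≤ κ * Gw τ η n * q ^ nd n m := by
    rw [norm_mul, Complex.norm_real, Real.norm_of_nonneg hF.le]
    have := mul_le_mul_of_nonneg_left (hT.diff n m) hF.le
    refine this.trans (le_of_eq ?_)
    unfold Gw
    ring
  have e2 : nd (n + 1) (m + 1) = nd n m := by unfold nd; omega
  have h2 : ‖((Fw τ η (m + 1) - Fw τ η n : ℝ) : ℂ) * T (n + 1) (m + 1)‖ ≤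
      (τ * θ / (θ - 1) * θ ^ nd n m * Gw τ η n) * (κ * q ^ nd n m) := by
    rw [norm_mul, Complex.norm_real, Real.norm_eq_abs]
    refine mul_le_mul (F_diff h.t0 h.e0 h.th h.e1 h.e2 n m) ?_ (norm_nonneg _) ?_
    · have := hT.le (n + 1) (m + 1)
      rwa [e2] at this
    · exact mul_nonneg (mul_nonneg (div_nonneg (mul_nonneg h.t0.le hθ.le) hθ1.le)
        (pow_nonneg hθ.le _)) hG.le
  have h4 : ‖(Fw τ η (m + 1) : ℂ) * (T (n + 1) (m + 1) - conj (T (n + 1) (m + 1)))‖ ≤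
      2 * κ * y * (Fw τ η (m + 1) * q ^ nd n m) := by
    rw [norm_mul, Complex.norm_real, Real.norm_of_nonneg hF'.le, Complex.sub_conj, norm_mul,
      Complex.norm_I, mul_one, Complex.norm_real, Real.norm_eq_abs, abs_mul, abs_two]
    have h5 := hT.im_le (n + 1) (m + 1)
    rw [e2] at h5
    have h6 := mul_le_mul_of_nonneg_left h5 hF'.le
    linarith
  have h3 : q ^ nd n m ≤ (q * θ) ^ nd n m :=
    pow_le_pow_left₀ h.q0.le (by have := mul_lt_mul_of_pos_left h.th h.q0; linarith) _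
  rw [e]
  refine (norm_add_le _ _).trans (add_le_add ?_ h4)
  refine (norm_sub_le _ _).trans ?_
  calc _ ≤ κ * Gw τ η n * q ^ nd n m +
        (τ * θ / (θ - 1) * θ ^ nd n m * Gw τ η n) * (κ * q ^ nd n m) := add_le_add h1 h2
    _ ≤ κ * Gw τ η n * (q * θ) ^ nd n m +
        (τ * θ / (θ - 1) * θ ^ nd n m * Gw τ η n) * (κ * q ^ nd n m) :=
        add_le_add (mul_le_mul_of_nonneg_left h3 (mul_nonneg h.k0.le hG.le)) le_rfl
    _ = Ac θ κ τ * Gw τ η n * (q * θ) ^ nd n m := by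
        rw [mul_pow]
        unfold Ac
        ring

/-- the real double sum -/
theorem dbl1 (h : Wts q θ κ τ η) (a : ℕ → ℝ) (N : ℕ) :
    ∑ n ∈ range N, ∑ m ∈ range N, Gw τ η n * (q * θ) ^ nd n m * (a m * a (n + 1)) ≤
      Bc q θ / 2 * En τ η a N := by
  have hB := Bc_pos h
  have hG := G_pos h.t0 h.e0
  have hθ : 0 < θ := by have := h.th; linarith
  have hx := qt_pos h
  have hterm : ∀ n m, Gw τ η n * (q * θ) ^ nd n m * (a m * a (n + 1)) ≤
      1 / 2 * (Gw τ η n * a (n + 1) ^ 2 * (q * θ) ^ nd n m) +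
        1 / 2 * (Gw τ η m * a m ^ 2 * (q * θ ^ 2) ^ nd n m) := by
    intro n m
    have h2 : a m * a (n + 1) ≤ (a m ^ 2 + a (n + 1) ^ 2) / 2 := by
      nlinarith [sq_nonneg (a m - a (n + 1))]
    have h3 : Gw τ η n * (q * θ) ^ nd n m ≤ Gw τ η m * (q * θ ^ 2) ^ nd n m := by
      have h4 := G_nd h.t0 h.e0 h.th h.e1 h.e2 n m
      have h5 := mul_le_mul_of_nonneg_right h4 (pow_nonneg hx.le (nd n m))
      refine h5.trans (le_of_eq ?_)
      rw [show q * θ ^ 2 = θ * (q * θ) by ring, mul_pow θ]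
      ring
    calc _ ≤ (Gw τ η n * (q * θ) ^ nd n m) * ((a m ^ 2 + a (n + 1) ^ 2) / 2) :=
          mul_le_mul_of_nonneg_left h2 (mul_nonneg (hG n).le (pow_nonneg hx.le _))
      _ = 1 / 2 * (Gw τ η n * a (n + 1) ^ 2 * (q * θ) ^ nd n m) +
          1 / 2 * a m ^ 2 * (Gw τ η n * (q * θ) ^ nd n m) := by ring
      _ ≤ 1 / 2 * (Gw τ η n * a (n + 1) ^ 2 * (q * θ) ^ nd n m) +
          1 / 2 * a m ^ 2 * (Gw τ η m * (q * θ ^ 2) ^ nd n m) :=
          add_le_add le_rfl (mul_le_mul_of_nonneg_left h3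
            (mul_nonneg (by norm_num) (sq_nonneg _)))
      _ = _ := by ring
  refine (sum_le_sum fun n _ => sum_le_sum fun m _ => hterm n m).trans ?_
  simp only [sum_add_distrib]
  have hp1 : ∑ n ∈ range N, ∑ m ∈ range N,
      1 / 2 * (Gw τ η n * a (n + 1) ^ 2 * (q * θ) ^ nd n m) ≤
      Bc q θ / 2 * ∑ n ∈ range N, Gw τ η n * a (n + 1) ^ 2 := by
    rw [mul_sum]
    refine sum_le_sum fun n _ => ?_
    rw [← mul_sum, ← mul_sum]
    have := mul_le_mul_of_nonneg_left (sum_x h n N)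
      (mul_nonneg (mul_nonneg (by norm_num : (0 : ℝ) ≤ 1 / 2) (hG n).le)
        (sq_nonneg (a (n + 1))))
    calc _ = 1 / 2 * Gw τ η n * a (n + 1) ^ 2 * ∑ m ∈ range N, (q * θ) ^ nd n m := by ring
      _ ≤ _ := this
      _ = _ := by ring
  have hp2 : ∑ n ∈ range N, ∑ m ∈ range N,
      1 / 2 * (Gw τ η m * a m ^ 2 * (q * θ ^ 2) ^ nd n m) ≤
      Bc q θ / 2 * ∑ n ∈ range N, Gw τ η n * a n ^ 2 := by
    rw [sum_comm, mul_sum]
    refine sum_le_sum fun m _ => ?_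
    rw [← mul_sum, ← mul_sum]
    have := mul_le_mul_of_nonneg_left (sum_y h m N)
      (mul_nonneg (mul_nonneg (by norm_num : (0 : ℝ) ≤ 1 / 2) (hG m).le)
        (sq_nonneg (a m)))
    calc _ = 1 / 2 * Gw τ η m * a m ^ 2 * ∑ n ∈ range N, (q * θ ^ 2) ^ nd n m := by ring
      _ ≤ _ := this
      _ = _ := by ring
  have he : En τ η a N = ∑ n ∈ range N, Gw τ η n * a n ^ 2 +
      ∑ n ∈ range N, Gw τ η n * a (n + 1) ^ 2 := by
    unfold En
    rw [← sum_add_distrib]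
    exact sum_congr rfl fun n _ => by ring
  rw [he, mul_add]
  linarith

/-- the double sum with the imaginary parts -/
theorem dbl2 (h : Wts q θ κ τ η) (a : ℕ → ℝ) {U : ℝ} (hU : ∀ K, ∑ n ∈ range K, a n ^ 2 ≤ U)
    (N : ℕ) :
    ∑ n ∈ range N, ∑ m ∈ range N, Fw τ η (m + 1) * q ^ nd n m * |a m * a (n + 1)| ≤
      Fw τ η N * (2 / (1 - q) * U) := by
  have hF := F_pos h.t0 h.e0
  have hB : 0 < 2 / (1 - q) := div_pos two_pos (by have := h.q1; linarith)
  have hterm : ∀ n ∈ range N, ∀ m ∈ range N, Fw τ η (m + 1) * q ^ nd n m * |a m * a (n + 1)| ≤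
      Fw τ η N * (1 / 2 * (a (n + 1) ^ 2 * q ^ nd n m) + 1 / 2 * (a m ^ 2 * q ^ nd n m)) := by
    intro n _ m hm
    have h2 : |a m * a (n + 1)| ≤ (a m ^ 2 + a (n + 1) ^ 2) / 2 := by
      rw [abs_le]
      constructor <;> nlinarith [sq_nonneg (a m + a (n + 1)), sq_nonneg (a m - a (n + 1))]
    have h3 : Fw τ η (m + 1) ≤ Fw τ η N := F_mono h.t0 h.e0 (mem_range.1 hm)
    have h4 : q ^ nd n m * |a m * a (n + 1)| ≤ q ^ nd n m * ((a m ^ 2 + a (n + 1) ^ 2) / 2) :=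
      mul_le_mul_of_nonneg_left h2 (pow_nonneg h.q0.le _)
    calc _ = Fw τ η (m + 1) * (q ^ nd n m * |a m * a (n + 1)|) := by ring
      _ ≤ Fw τ η N * (q ^ nd n m * ((a m ^ 2 + a (n + 1) ^ 2) / 2)) :=
        mul_le_mul h3 h4 (mul_nonneg (pow_nonneg h.q0.le _) (abs_nonneg _)) (hF N).le
      _ = _ := by ring
  refine (sum_le_sum fun n hn => sum_le_sum fun m hm => hterm n hn m hm).trans ?_
  have hfac : ∑ n ∈ range N, ∑ m ∈ range N,
      Fw τ η N * (1 / 2 * (a (n + 1) ^ 2 * q ^ nd n m) + 1 / 2 * (a m ^ 2 * q ^ nd n m)) =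
      Fw τ η N * (∑ n ∈ range N, ∑ m ∈ range N, 1 / 2 * (a (n + 1) ^ 2 * q ^ nd n m) +
        ∑ n ∈ range N, ∑ m ∈ range N, 1 / 2 * (a m ^ 2 * q ^ nd n m)) := by
    rw [← sum_add_distrib, mul_sum]
    refine sum_congr rfl fun n _ => ?_
    rw [← sum_add_distrib, mul_sum]
  rw [hfac]
  refine mul_le_mul_of_nonneg_left ?_ (hF N).le
  have hp1 : ∑ n ∈ range N, ∑ m ∈ range N, 1 / 2 * (a (n + 1) ^ 2 * q ^ nd n m) ≤
      1 / 2 * (2 / (1 - q) * U) := by
    have h1 : ∀ n, ∑ m ∈ range N, 1 / 2 * (a (n + 1) ^ 2 * q ^ nd n m) ≤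
        1 / 2 * (2 / (1 - q)) * a (n + 1) ^ 2 := by
      intro n
      rw [← mul_sum, ← mul_sum]
      have := mul_le_mul_of_nonneg_left (sum_nd_le h.q0 h.q1 n N)
        (mul_nonneg (by norm_num : (0 : ℝ) ≤ 1 / 2) (sq_nonneg (a (n + 1))))
      linarith
    refine (sum_le_sum fun n _ => h1 n).trans ?_
    rw [← mul_sum]
    have h2 : ∑ n ∈ range N, a (n + 1) ^ 2 ≤ U := by
      have h3 := hU (N + 1)
      rw [sum_range_succ'] at h3
      have := sq_nonneg (a 0)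
      linarith
    have := mul_le_mul_of_nonneg_left h2 (by positivity : (0 : ℝ) ≤ 1 / 2 * (2 / (1 - q)))
    linarith
  have hp2 : ∑ n ∈ range N, ∑ m ∈ range N, 1 / 2 * (a m ^ 2 * q ^ nd n m) ≤
      1 / 2 * (2 / (1 - q) * U) := by
    rw [sum_comm]
    have h1 : ∀ m, ∑ n ∈ range N, 1 / 2 * (a m ^ 2 * q ^ nd n m) ≤
        1 / 2 * (2 / (1 - q)) * a m ^ 2 := by
      intro m
      rw [← mul_sum, ← mul_sum]
      have := mul_le_mul_of_nonneg_left (sum_nd_le' h.q0 h.q1 m N)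
        (mul_nonneg (by norm_num : (0 : ℝ) ≤ 1 / 2) (sq_nonneg (a m)))
      linarith
    refine (sum_le_sum fun n _ => h1 n).trans ?_
    rw [← mul_sum]
    have := mul_le_mul_of_nonneg_left (hU N) (by positivity : (0 : ℝ) ≤ 1 / 2 * (2 / (1 - q)))
    linarith
  linarith

/-- the shifted complex sequence -/
def psc (φ : ℕ → ℂ) : ℕ → ℂ
  | 0 => 0
  | n + 1 => φ n

theorem norm_psc (φ : ℕ → ℂ) (n : ℕ) : ‖psc φ n‖ = psi (fun i => ‖φ i‖) n := by
  cases n with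
  | zero => simp [psc, psi]
  | succ n => rfl

/-- The shift identity, real parts. -/
theorem shift_idC (hs : ∀ n m, T n m = T m n) (F : ℕ → ℝ) (φ : ℕ → ℂ) (N : ℕ) :
    (∑ n ∈ range (N + 1), ∑ m ∈ range (N + 1),
      (F n : ℂ) * T n m * φ m * conj (φ (n + 1) - psc φ n)).re =
      (∑ n ∈ range N, ∑ m ∈ range N,
        ((F n : ℂ) * T n m - (F (m + 1) : ℂ) * conj (T (n + 1) (m + 1))) *
          (φ m * conj (φ (n + 1)))).re +
      (∑ m ∈ range (N + 1), (F N : ℂ) * T N m * φ m * conj (φ (N + 1))).re +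
      (∑ n ∈ range N, (F n : ℂ) * T n N * φ N * conj (φ (n + 1))).re -
      (∑ n ∈ range N, (F (n + 1) : ℂ) * T (n + 1) 0 * φ 0 * conj (φ n)).re := by
  have h1 : ∑ n ∈ range (N + 1), ∑ m ∈ range (N + 1),
      (F n : ℂ) * T n m * φ m * conj (φ (n + 1) - psc φ n) =
      ∑ n ∈ range (N + 1), ∑ m ∈ range (N + 1), (F n : ℂ) * T n m * φ m * conj (φ (n + 1)) -
      ∑ n ∈ range (N + 1), ∑ m ∈ range (N + 1), (F n : ℂ) * T n m * φ m * conj (psc φ n) := by
    rw [← sum_sub_distrib]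
    refine sum_congr rfl fun n _ => ?_
    rw [← sum_sub_distrib]
    exact sum_congr rfl fun m _ => by rw [map_sub]; ring
  have h2 : ∑ n ∈ range (N + 1), ∑ m ∈ range (N + 1), (F n : ℂ) * T n m * φ m * conj (φ (n + 1)) =
      ∑ n ∈ range N, ∑ m ∈ range N, (F n : ℂ) * T n m * φ m * conj (φ (n + 1)) +
      ∑ n ∈ range N, (F n : ℂ) * T n N * φ N * conj (φ (n + 1)) +
      ∑ m ∈ range (N + 1), (F N : ℂ) * T N m * φ m * conj (φ (N + 1)) := by
    rw [sum_range_succ, ← sum_add_distrib]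
    congr 1
    exact sum_congr rfl fun n _ => sum_range_succ _ _
  have h3 : ∑ n ∈ range (N + 1), ∑ m ∈ range (N + 1), (F n : ℂ) * T n m * φ m * conj (psc φ n) =
      conj (∑ n ∈ range N, ∑ m ∈ range N,
        (F (m + 1) : ℂ) * conj (T (n + 1) (m + 1)) * φ m * conj (φ (n + 1))) +
      ∑ n ∈ range N, (F (n + 1) : ℂ) * T (n + 1) 0 * φ 0 * conj (φ n) := by
    rw [sum_range_succ']
    have h4 : ∑ m ∈ range (N + 1), (F 0 : ℂ) * T 0 m * φ m * conj (psc φ 0) = 0 :=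
      sum_eq_zero fun m _ => by simp [psc]
    rw [h4, add_zero]
    have h5 : ∀ n, ∑ m ∈ range (N + 1), (F (n + 1) : ℂ) * T (n + 1) m * φ m *
        conj (psc φ (n + 1)) =
        ∑ m ∈ range N, (F (n + 1) : ℂ) * T (n + 1) (m + 1) * φ (m + 1) * conj (φ n) +
          (F (n + 1) : ℂ) * T (n + 1) 0 * φ 0 * conj (φ n) := fun n => sum_range_succ' _ _
    rw [sum_congr rfl fun n _ => h5 n, sum_add_distrib, sum_comm]
    congr 1
    rw [map_sum]
    refine sum_congr rfl fun n _ => ?_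
    rw [map_sum]
    refine sum_congr rfl fun m _ => ?_
    rw [hs (m + 1) (n + 1)]
    simp only [map_mul, Complex.conj_conj, Complex.conj_ofReal]
    ring
  rw [h1, h2, h3]
  have h6 : ∑ n ∈ range N, ∑ m ∈ range N,
        ((F n : ℂ) * T n m - (F (m + 1) : ℂ) * conj (T (n + 1) (m + 1))) *
          (φ m * conj (φ (n + 1))) =
      ∑ n ∈ range N, ∑ m ∈ range N, (F n : ℂ) * T n m * φ m * conj (φ (n + 1)) -
      ∑ n ∈ range N, ∑ m ∈ range N,
        (F (m + 1) : ℂ) * conj (T (n + 1) (m + 1)) * φ m * conj (φ (n + 1)) := by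
    rw [← sum_sub_distrib]
    refine sum_congr rfl fun n _ => ?_
    rw [← sum_sub_distrib]
    exact sum_congr rfl fun m _ => by ring
  rw [h6]
  simp only [Complex.sub_re, Complex.add_re, Complex.conj_re]
  ring

end kernel

end Pool.Agent.Helper34.PG
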