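import Pool.Agent.Helper34.PG.Vc1

/-!
# The quantitative virial lemma, complex energies: boundary terms and the energy identity
-/

set_option autoImplicit false

namespace Pool.Agent.Helper34.PG

open Finset ComplexConjugate

variable {q θ κ τ Y y U : ℝ} {η : ℕ → ℝ} {N : ℕ} {T : ℕ → ℕ → ℂ} {φ : ℕ → ℂ}

theorem re_sum_le (s : Finset ℕ) (z : ℕ → ℂ) : |(∑ n ∈ s, z n).re| ≤ ∑ n ∈ s, ‖z n‖ :=
  (Complex.abs_re_le_norm _).trans (norm_sum_le _ _)

theorem b1C (h : Wts q θ κ τ η) (hT : KerC q κ y η T)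
    (hY : ∀ s : Finset ℕ, ∑ i ∈ s, q ^ nd i N * |‖φ i‖| ≤ Y) :
    |(∑ m ∈ range (N + 1), (Fw τ η N : ℂ) * T N m * φ m * conj (φ (N + 1))).re| ≤
      κ * q⁻¹ * (Fw τ η N * Y ^ 2) := by
  have hF := F_pos h.t0 h.e0 N
  refine (re_sum_le _ _).trans (le_trans ?_ ((le_abs_self _).trans (b1_le h (toep h) hY)))
  refine sum_le_sum fun m _ => ?_
  rw [norm_mul, norm_mul, norm_mul, Complex.norm_real, Real.norm_of_nonneg hF.le,
    Complex.norm_conj]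
  refine mul_le_mul_of_nonneg_right (mul_le_mul_of_nonneg_right ?_ (norm_nonneg _))
    (norm_nonneg _)
  exact mul_le_mul_of_nonneg_left (hT.le N m) hF.le

theorem b2C (h : Wts q θ κ τ η) (hT : KerC q κ y η T)
    (hY : ∀ s : Finset ℕ, ∑ i ∈ s, q ^ nd i N * |‖φ i‖| ≤ Y) :
    |(∑ n ∈ range N, (Fw τ η n : ℂ) * T n N * φ N * conj (φ (n + 1))).re| ≤
      κ * q⁻¹ * (Fw τ η N * Y ^ 2) := by
  have hF := F_pos h.t0 h.e0
  refine (re_sum_le _ _).trans (le_trans ?_ ((le_abs_self _).trans (b2_le h (toep h) hY)))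
  refine sum_le_sum fun m _ => ?_
  rw [norm_mul, norm_mul, norm_mul, Complex.norm_real, Real.norm_of_nonneg (hF m).le,
    Complex.norm_conj]
  refine mul_le_mul_of_nonneg_right (mul_le_mul_of_nonneg_right ?_ (norm_nonneg _))
    (norm_nonneg _)
  exact mul_le_mul_of_nonneg_left (hT.le m N) (hF m).le

theorem b3C (h : Wts q θ κ τ η) (hT : KerC q κ y η T) (φ : ℕ → ℂ) (N : ℕ) :
    |(∑ n ∈ range N, (Fw τ η (n + 1) : ℂ) * T (n + 1) 0 * φ 0 * conj (φ n)).re| ≤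
      κ / 2 * (1 + Bc q θ) * En τ η (fun i => ‖φ i‖) N := by
  have hF := F_pos h.t0 h.e0
  refine (re_sum_le _ _).trans (le_trans ?_ ((le_abs_self _).trans
    (b3_le h (toep h) (fun i => ‖φ i‖) N)))
  refine sum_le_sum fun m _ => ?_
  rw [norm_mul, norm_mul, norm_mul, Complex.norm_real, Real.norm_of_nonneg (hF _).le,
    Complex.norm_conj]
  refine mul_le_mul_of_nonneg_right (mul_le_mul_of_nonneg_right ?_ (norm_nonneg _))
    (norm_nonneg _)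
  exact mul_le_mul_of_nonneg_left (hT.le (m + 1) 0) (hF _).le

theorem norm_Delta (φ : ℕ → ℂ) (n : ℕ) :
    ‖conj (φ (n + 1) - psc φ n)‖ ≤ |‖φ (n + 1)‖| + |psi (fun i => ‖φ i‖) n| := by
  rw [Complex.norm_conj, ← norm_psc, abs_norm, abs_norm]
  exact norm_sub_le _ _

theorem tailC (h : Wts q θ κ τ η)
    (hY : ∀ s : Finset ℕ, ∑ i ∈ s, q ^ nd i N * |‖φ i‖| ≤ Y) {t : ℕ → ℂ}
    (ht : ∀ n ∈ range (N + 1), ‖t n‖ ≤ κ * q ^ nd n N * Y) :
    |(∑ n ∈ range (N + 1), (Fw τ η n : ℂ) * t n * conj (φ (n + 1) - psc φ n)).re| ≤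
      2 * κ * q⁻¹ * (Fw τ η N * Y ^ 2) := by
  have hF := F_pos h.t0 h.e0
  have hY0 := Y_nonneg hY
  have h1 : ∀ n ∈ range (N + 1), ‖(Fw τ η n : ℂ) * t n * conj (φ (n + 1) - psc φ n)‖ ≤
      Fw τ η N * κ * Y * (q ^ nd n N * |‖φ (n + 1)‖| + q ^ nd n N *
        |psi (fun i => ‖φ i‖) n|) := by
    intro n hn
    rw [norm_mul, norm_mul, Complex.norm_real, Real.norm_of_nonneg (hF n).le]
    have h3 := F_mono h.t0 h.e0 (Nat.lt_succ_iff.1 (mem_range.1 hn))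
    have h4 : Fw τ η n * ‖t n‖ ≤ Fw τ η N * (κ * q ^ nd n N * Y) :=
      mul_le_mul h3 (ht n hn) (norm_nonneg _) (hF N).le
    have h5 := norm_Delta φ n
    have h6 : 0 ≤ Fw τ η N * (κ * q ^ nd n N * Y) :=
      mul_nonneg (hF N).le (mul_nonneg (mul_nonneg h.k0.le (pow_nonneg h.q0.le _)) hY0)
    calc _ ≤ (Fw τ η N * (κ * q ^ nd n N * Y)) * (|‖φ (n + 1)‖| + |psi (fun i => ‖φ i‖) n|) :=
          mul_le_mul h4 h5 (norm_nonneg _) h6
      _ = _ := by ring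
  refine (re_sum_le _ _).trans ((sum_le_sum h1).trans ?_)
  rw [← mul_sum, sum_add_distrib]
  have h2 := Y_succ h.q0 h.q1 hY (N + 1)
  have h3 := Y_psi h.q0 h.q1 hY (N + 1)
  have h4 := mul_le_mul_of_nonneg_left (add_le_add h2 h3)
    (mul_nonneg (mul_nonneg (hF N).le h.k0.le) hY0)
  calc _ ≤ _ := h4
    _ = _ := by ring

/-- the self energy part -/
theorem KC_le (h : Wts q θ κ τ η) (hy : 0 ≤ y) (hT : KerC q κ y η T)
    (hY : ∀ s : Finset ℕ, ∑ i ∈ s, q ^ nd i N * |‖φ i‖| ≤ Y) {t : ℕ → ℂ}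
    (hU : ∀ K, ∑ n ∈ range K, ‖φ n‖ ^ 2 ≤ U)
    (ht : ∀ n ∈ range (N + 1), ‖t n‖ ≤ κ * q ^ nd n N * Y) :
    |(∑ n ∈ range (N + 1), (Fw τ η n : ℂ) * (∑ m ∈ range (N + 1), T n m * φ m + t n) *
      conj (φ (n + 1) - psc φ n)).re| ≤
      (Ac θ κ τ * Bc q θ / 2 + κ / 2 * (1 + Bc q θ)) * En τ η (fun i => ‖φ i‖) N +
        4 * κ * q⁻¹ * (Fw τ η N * Y ^ 2) + 2 * κ * y * (Fw τ η N * (2 / (1 - q) * U)) := by
  have e : ∑ n ∈ range (N + 1), (Fw τ η n : ℂ) * (∑ m ∈ range (N + 1), T n m * φ m + t n) *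
      conj (φ (n + 1) - psc φ n) =
      ∑ n ∈ range (N + 1), ∑ m ∈ range (N + 1), (Fw τ η n : ℂ) * T n m * φ m *
        conj (φ (n + 1) - psc φ n) +
      ∑ n ∈ range (N + 1), (Fw τ η n : ℂ) * t n * conj (φ (n + 1) - psc φ n) := by
    rw [← sum_add_distrib]
    refine sum_congr rfl fun n _ => ?_
    rw [mul_add, add_mul, mul_sum, sum_mul]
    congr 1
    exact sum_congr rfl fun m _ => by ring
  rw [e, Complex.add_re, shift_idC hT.symm]
  have h1 : |(∑ n ∈ range N, ∑ m ∈ range N,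
        ((Fw τ η n : ℂ) * T n m - (Fw τ η (m + 1) : ℂ) * conj (T (n + 1) (m + 1))) *
          (φ m * conj (φ (n + 1)))).re| ≤
      Ac θ κ τ * Bc q θ / 2 * En τ η (fun i => ‖φ i‖) N +
        2 * κ * y * (Fw τ η N * (2 / (1 - q) * U)) := by
    refine (Complex.abs_re_le_norm _).trans ((norm_sum_le _ _).trans
      ((sum_le_sum fun n _ => norm_sum_le _ _).trans ?_))
    have h2 : ∀ n m, ‖((Fw τ η n : ℂ) * T n m - (Fw τ η (m + 1) : ℂ) *
        conj (T (n + 1) (m + 1))) * (φ m * conj (φ (n + 1)))‖ ≤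
        Ac θ κ τ * (Gw τ η n * (q * θ) ^ nd n m * (‖φ m‖ * ‖φ (n + 1)‖)) +
        2 * κ * y * (Fw τ η (m + 1) * q ^ nd n m * |‖φ m‖ * ‖φ (n + 1)‖|) := by
      intro n m
      rw [norm_mul, norm_mul (φ m), Complex.norm_conj,
        abs_of_nonneg (mul_nonneg (norm_nonneg (φ m)) (norm_nonneg (φ (n + 1))))]
      have h3 := mul_le_mul_of_nonneg_right (D_leC h hT n m)
        (mul_nonneg (norm_nonneg (φ m)) (norm_nonneg (φ (n + 1))))
      refine h3.trans (le_of_eq ?_)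
      ring
    refine (sum_le_sum fun n _ => sum_le_sum fun m _ => h2 n m).trans ?_
    have h4 := mul_le_mul_of_nonneg_left (dbl1 h (fun i => ‖φ i‖) N) (Ac_pos h).le
    have h5 := mul_le_mul_of_nonneg_left (dbl2 h (fun i => ‖φ i‖) hU N)
      (mul_nonneg (mul_nonneg two_pos.le h.k0.le) hy)
    simp only [sum_add_distrib, ← mul_sum]
    have e4 : Ac θ κ τ * (Bc q θ / 2 * En τ η (fun i => ‖φ i‖) N) =
      Ac θ κ τ * Bc q θ / 2 * En τ η (fun i => ‖φ i‖) N := by ring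
    rw [e4] at h4
    exact add_le_add h4 h5
  have h2 := b1C h hT hY
  have h3 := b2C h hT hY
  have h4 := b3C h hT φ N
  have h5 := tailC h hY ht
  rw [abs_le] at *
  constructor <;> linarith [h1.1, h1.2, h2.1, h2.2, h3.1, h3.2, h4.1, h4.2, h5.1, h5.2]

theorem VC_le (h : Wts q θ κ τ η) {v : ℕ → ℝ} (hv : ∀ n, |v n| ≤ κ * η n)
    (hY : ∀ s : Finset ℕ, ∑ i ∈ s, q ^ nd i N * |‖φ i‖| ≤ Y) :
    |(∑ n ∈ range (N + 1), (Fw τ η n : ℂ) * ((v n : ℂ) * φ n) *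
      conj (φ (n + 1) - psc φ n)).re| ≤
      κ * (1 + θ / 2) * En τ η (fun i => ‖φ i‖) N + 6 * κ * q⁻¹ * (Fw τ η N * Y ^ 2) := by
  have hF := F_pos h.t0 h.e0
  have hG := G_pos h.t0 h.e0
  have hk := h.k0
  have hY0 := Y_nonneg hY
  have hθ : 0 < θ := by have := h.th; linarith
  set a : ℕ → ℝ := fun i => ‖φ i‖ with ha
  have h1 : ∀ n, ‖(Fw τ η n : ℂ) * ((v n : ℂ) * φ n) * conj (φ (n + 1) - psc φ n)‖ ≤
      κ * (Gw τ η n * (|a n| * (|a (n + 1)| + |psi a n|))) := by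
    intro n
    rw [norm_mul, norm_mul, norm_mul, Complex.norm_real, Complex.norm_real,
      Real.norm_of_nonneg (hF n).le, Real.norm_eq_abs]
    have h5 := norm_Delta φ n
    have h6 : Fw τ η n * (|v n| * ‖φ n‖) ≤ Fw τ η n * (κ * η n * |a n|) := by
      rw [ha]
      simp only [abs_norm]
      exact mul_le_mul_of_nonneg_left (mul_le_mul_of_nonneg_right (hv n) (norm_nonneg _)) (hF n).le
    calc _ ≤ (Fw τ η n * (κ * η n * |a n|)) * (|a (n + 1)| + |psi a n|) :=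
          mul_le_mul h6 h5 (norm_nonneg _) (mul_nonneg (hF n).le
            (mul_nonneg (mul_nonneg hk.le (h.e0 n).le) (abs_nonneg _)))
      _ = _ := by unfold Gw; ring
  have h2 : ∀ n, κ * (Gw τ η n * (|a n| * (|a (n + 1)| + |psi a n|))) ≤
      κ * (Gw τ η n * (a n ^ 2 + a (n + 1) ^ 2)) + κ / 2 * (Gw τ η n * psi a n ^ 2) := by
    intro n
    have h3 : |a n| * (|a (n + 1)| + |psi a n|) ≤ a n ^ 2 + a (n + 1) ^ 2 + psi a n ^ 2 / 2 := by
      nlinarith [sq_nonneg (|a n| - |a (n + 1)|), sq_nonneg (|a n| - |psi a n|), sq_abs (a n),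
        sq_abs (a (n + 1)), sq_abs (psi a n), sq_nonneg (a (n + 1))]
    have h4 := mul_le_mul_of_nonneg_left h3 (mul_nonneg hk.le (hG n).le)
    calc _ = κ * Gw τ η n * (|a n| * (|a (n + 1)| + |psi a n|)) := by ring
      _ ≤ _ := h4
      _ = _ := by ring
  refine (re_sum_le _ _).trans ?_
  rw [sum_range_succ]
  refine (add_le_add ?_ ?_)
  · refine ((sum_le_sum fun n _ => (h1 n).trans (h2 n)).trans ?_)
    rw [sum_add_distrib, ← mul_sum, ← mul_sum]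
    have h3 : ∑ n ∈ range N, Gw τ η n * psi a n ^ 2 ≤ θ * En τ η a N := by
      have h4 : ∑ n ∈ range N, Gw τ η n * psi a n ^ 2 ≤
          ∑ n ∈ range (N + 1), Gw τ η n * psi a n ^ 2 :=
        sum_le_sum_of_subset_of_nonneg (range_subset_range.2 (by omega)) fun n _ _ =>
          mul_nonneg (hG n).le (sq_nonneg _)
      refine h4.trans ?_
      rw [sum_range_succ']
      simp only [psi]
      have h5 := mul_le_mul_of_nonneg_left (sumG_le h a N) hθ.le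
      refine le_trans ?_ h5
      rw [mul_sum]
      have h6 : ∀ n, Gw τ η (n + 1) * a n ^ 2 ≤ θ * (Gw τ η n * a n ^ 2) := by
        intro n
        rw [← mul_assoc]
        exact mul_le_mul_of_nonneg_right (G_succ_le h.t0 h.e0 h.e1 n) (sq_nonneg _)
      have h7 := sum_le_sum fun n (_ : n ∈ range N) => h6 n
      simp only [ne_eq, OfNat.ofNat_ne_zero, not_false_eq_true, zero_pow, mul_zero, add_zero]
      exact h7
    have h4 := mul_le_mul_of_nonneg_left h3 (by linarith : (0 : ℝ) ≤ κ / 2)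
    have h5 : ∑ n ∈ range N, Gw τ η n * (a n ^ 2 + a (n + 1) ^ 2) = En τ η a N := rfl
    rw [h5]
    linarith
  · refine (h1 N).trans ?_
    have h3 := Y_N hY
    have h4 := Y_N1 h.q0 h.q1 hY
    have h5 := Y_psiN h.q0 h.q1 hY
    have h6 : |a N| * (|a (N + 1)| + |psi a N|) ≤ Y * (2 * (q⁻¹ * Y)) :=
      mul_le_mul h3 (by linarith) (add_nonneg (abs_nonneg _) (abs_nonneg _)) hY0
    have h7 : Gw τ η N ≤ 3 * Fw τ η N := by
      unfold Gw
      exact mul_le_mul_of_nonneg_right (h.e3 N) (hF N).le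
    have h8 : 0 ≤ Y * (2 * (q⁻¹ * Y)) :=
      mul_nonneg hY0 (mul_nonneg two_pos.le (mul_nonneg (inv_nonneg.2 h.q0.le) hY0))
    calc _ ≤ κ * ((3 * Fw τ η N) * (Y * (2 * (q⁻¹ * Y)))) :=
          mul_le_mul_of_nonneg_left (mul_le_mul h7 h6
            (mul_nonneg (abs_nonneg _) (add_nonneg (abs_nonneg _) (abs_nonneg _)))
            (mul_nonneg (by norm_num) (hF N).le)) hk.le
      _ = _ := by ring

/-- the local energy -/
noncomputable def Wl (c : ℝ) (φ : ℕ → ℂ) (n : ℕ) : ℝ :=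
  ‖φ (n + 1)‖ ^ 2 + ‖φ n‖ ^ 2 - 2 * c * (φ n * conj (φ (n + 1))).re

theorem Wl_diff (c : ℝ) (φ : ℕ → ℂ) (n : ℕ) (f : ℂ)
    (hf : φ (n + 2) + φ n = 2 * (c : ℂ) * φ (n + 1) + f) :
    Wl c φ (n + 1) - Wl c φ n = (f * conj (φ (n + 2) - φ n)).re := by
  have hre := congrArg Complex.re hf
  have him := congrArg Complex.im hf
  simp only [Complex.add_re, Complex.add_im, Complex.mul_re, Complex.mul_im, Complex.ofReal_re,
    Complex.ofReal_im, Complex.re_ofNat, Complex.im_ofNat] at hre him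
  unfold Wl
  rw [← Complex.normSq_eq_norm_sq, ← Complex.normSq_eq_norm_sq, ← Complex.normSq_eq_norm_sq]
  simp only [Complex.normSq_apply, Complex.mul_re, Complex.conj_re, Complex.conj_im,
    Complex.sub_re, Complex.sub_im, map_sub]
  linear_combination ((φ (n + 2)).re - (φ n).re) * hre + ((φ (n + 2)).im - (φ n).im) * him

theorem energyC (τ : ℝ) (η : ℕ → ℝ) (c : ℝ) (φ f : ℕ → ℂ)
    (hf : ∀ n, φ (n + 2) + φ n = 2 * (c : ℂ) * φ (n + 1) + f (n + 1)) (N : ℕ) :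
    Wl c φ 0 + ∑ n ∈ range N, τ * Gw τ η n * Wl c φ n =
      Fw τ η N * Wl c φ N -
        ∑ n ∈ range N, Fw τ η (n + 1) * (f (n + 1) * conj (φ (n + 2) - φ n)).re := by
  induction N with
  | zero => simp [F_zero]
  | succ N ih =>
    rw [sum_range_succ, ← add_assoc, ih, sum_range_succ _ N, F_succ,
      ← Wl_diff c φ N (f (N + 1)) (hf N)]
    ring

theorem Wl_le {c : ℝ} (hc1 : |c| ≤ 1) (φ : ℕ → ℂ) (n : ℕ) :
    Wl c φ n ≤ 2 * (‖φ n‖ ^ 2 + ‖φ (n + 1)‖ ^ 2) := by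
  have h1 : |(φ n * conj (φ (n + 1))).re| ≤ ‖φ n‖ * ‖φ (n + 1)‖ := by
    refine (Complex.abs_re_le_norm _).trans (le_of_eq ?_)
    rw [norm_mul, Complex.norm_conj]
  have h2 : -(c * (φ n * conj (φ (n + 1))).re) ≤ ‖φ n‖ * ‖φ (n + 1)‖ := by
    have h3 : -(c * (φ n * conj (φ (n + 1))).re) ≤ |c| * |(φ n * conj (φ (n + 1))).re| := by
      rw [← abs_mul]; exact neg_le_abs _
    have h4 := mul_le_mul hc1 h1 (abs_nonneg _) zero_le_one
    linarith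
  unfold Wl
  nlinarith [sq_nonneg (‖φ n‖ - ‖φ (n + 1)‖)]

theorem Wl_ge {c δ : ℝ} (hc : |c| ≤ 1 - δ) (φ : ℕ → ℂ) (n : ℕ) :
    δ * (‖φ n‖ ^ 2 + ‖φ (n + 1)‖ ^ 2) ≤ Wl c φ n := by
  have h1 : |(φ n * conj (φ (n + 1))).re| ≤ ‖φ n‖ * ‖φ (n + 1)‖ := by
    refine (Complex.abs_re_le_norm _).trans (le_of_eq ?_)
    rw [norm_mul, Complex.norm_conj]
  have h2 : c * (φ n * conj (φ (n + 1))).re ≤ |c| * (‖φ n‖ * ‖φ (n + 1)‖) := by
    have h3 : c * (φ n * conj (φ (n + 1))).re ≤ |c| * |(φ n * conj (φ (n + 1))).re| := by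
      rw [← abs_mul]; exact le_abs_self _
    exact h3.trans (mul_le_mul_of_nonneg_left h1 (abs_nonneg _))
  have h4 : |c| * (2 * (‖φ n‖ * ‖φ (n + 1)‖)) ≤ (1 - δ) * (‖φ n‖ ^ 2 + ‖φ (n + 1)‖ ^ 2) := by
    have h5 : 2 * (‖φ n‖ * ‖φ (n + 1)‖) ≤ ‖φ n‖ ^ 2 + ‖φ (n + 1)‖ ^ 2 := by
      nlinarith [sq_nonneg (‖φ n‖ - ‖φ (n + 1)‖)]
    have h6 : 0 ≤ 1 - δ := (abs_nonneg c).trans hc
    exact mul_le_mul hc h5 (by positivity) h6
  unfold Wl
  linarith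

end Pool.Agent.Helper34.PG
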