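import Pool.Agent.Helper34.PG.Vc2

/-!
# The quantitative virial lemma, complex energies: the remaining terms
-/

set_option autoImplicit false

namespace Pool.Agent.Helper34.PG

open Finset ComplexConjugate

variable {q θ κ τ Y y U : ℝ} {η : ℕ → ℝ} {N : ℕ} {φ : ℕ → ℂ}

theorem one_le_F (h : Wts q θ κ τ η) (n : ℕ) : 1 ≤ Fw τ η n := by
  rw [← F_zero (τ := τ) (η := η)]
  exact F_mono h.t0 h.e0 (Nat.zero_le n)

/-- the term of the imaginary part of the energy -/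
theorem yterm (h : Wts q θ κ τ η) (hy : 0 ≤ y) (hU : ∀ K, ∑ n ∈ range K, ‖φ n‖ ^ 2 ≤ U) :
    |∑ n ∈ range N, Fw τ η (n + 1) *
      ((y : ℂ) * Complex.I / 2 * φ (n + 1) * conj (φ (n + 2) - φ n)).re| ≤
      y * (Fw τ η N * U) := by
  have hF := F_pos h.t0 h.e0
  have h1 : ∀ n ∈ range N, |Fw τ η (n + 1) *
      ((y : ℂ) * Complex.I / 2 * φ (n + 1) * conj (φ (n + 2) - φ n)).re| ≤
      Fw τ η N * (y / 2) * (‖φ (n + 1)‖ ^ 2 + ‖φ (n + 2)‖ ^ 2 / 2 + ‖φ n‖ ^ 2 / 2) := by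
    intro n hn
    rw [abs_mul, abs_of_pos (hF _)]
    have h2 : |((y : ℂ) * Complex.I / 2 * φ (n + 1) * conj (φ (n + 2) - φ n)).re| ≤
        y / 2 * (‖φ (n + 1)‖ ^ 2 + ‖φ (n + 2)‖ ^ 2 / 2 + ‖φ n‖ ^ 2 / 2) := by
      refine (Complex.abs_re_le_norm _).trans ?_
      rw [norm_mul, norm_mul, norm_div, norm_mul, Complex.norm_real, Complex.norm_I,
        Complex.norm_ofNat, Complex.norm_conj, Real.norm_of_nonneg hy, mul_one]
      have h3 : ‖φ (n + 1)‖ * ‖φ (n + 2) - φ n‖ ≤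
          ‖φ (n + 1)‖ ^ 2 + ‖φ (n + 2)‖ ^ 2 / 2 + ‖φ n‖ ^ 2 / 2 := by
        have h4 := norm_sub_le (φ (n + 2)) (φ n)
        have h5 := mul_le_mul_of_nonneg_left h4 (norm_nonneg (φ (n + 1)))
        nlinarith [sq_nonneg (‖φ (n + 1)‖ - ‖φ (n + 2)‖), sq_nonneg (‖φ (n + 1)‖ - ‖φ n‖)]
      rw [mul_assoc]
      exact mul_le_mul_of_nonneg_left h3 (by linarith)
    have h3 : Fw τ η (n + 1) ≤ Fw τ η N := F_mono h.t0 h.e0 (mem_range.1 hn)
    calc _ ≤ Fw τ η N * (y / 2 * (‖φ (n + 1)‖ ^ 2 + ‖φ (n + 2)‖ ^ 2 / 2 + ‖φ n‖ ^ 2 / 2)) :=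
          mul_le_mul h3 h2 (abs_nonneg _) (hF N).le
      _ = _ := by ring
  refine (abs_sum_le_sum_abs _ _).trans ((sum_le_sum h1).trans ?_)
  rw [← mul_sum]
  have h2 : ∑ n ∈ range N, (‖φ (n + 1)‖ ^ 2 + ‖φ (n + 2)‖ ^ 2 / 2 + ‖φ n‖ ^ 2 / 2) ≤ 2 * U := by
    rw [sum_add_distrib, sum_add_distrib, ← sum_div, ← sum_div]
    have e1 : ∑ n ∈ range N, ‖φ (n + 1)‖ ^ 2 ≤ U := by
      have h3 := hU (N + 1)
      rw [sum_range_succ'] at h3
      have := sq_nonneg ‖φ 0‖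
      linarith
    have e2 : ∑ n ∈ range N, ‖φ (n + 2)‖ ^ 2 ≤ U := by
      have h3 := hU (N + 2)
      rw [sum_range_succ', sum_range_succ'] at h3
      have := sq_nonneg ‖φ 0‖
      have := sq_nonneg ‖φ (0 + 1)‖
      linarith
    have e3 := hU N
    linarith
  have h3 := mul_le_mul_of_nonneg_left h2
    (mul_nonneg (hF N).le (by linarith : (0 : ℝ) ≤ y / 2))
  calc _ ≤ _ := h3
    _ = _ := by ring

theorem En_add (h : Wts q θ κ τ η) (a : ℕ → ℝ) (N : ℕ) :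
    ∑ n ∈ range N, Gw τ η n * a (n + 1) ^ 2 ≤ En τ η a N :=
  sum_le_sum fun n _ => mul_le_mul_of_nonneg_left (by have := sq_nonneg (a n); linarith)
    (G_pos h.t0 h.e0 n).le

/-- the term of the source -/
theorem gterm (h : Wts q θ κ τ η) {ε G : ℝ} (hε : 0 < ε) (hG0 : 0 ≤ G) {g : ℕ → ℂ}
    (hg : ∀ n, ‖g n‖ ≤ G * q ^ n)
    (hY : ∀ s : Finset ℕ, ∑ i ∈ s, q ^ nd i N * |‖φ i‖| ≤ Y) :
    |∑ n ∈ range N, Fw τ η (n + 1) * (g (n + 1) * conj (φ (n + 2) - φ n)).re| ≤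
      Bc q θ / ε * G ^ 2 + ε * En τ η (fun i => ‖φ i‖) N +
        2 * ε * q⁻¹ ^ 2 * (Fw τ η N * Y ^ 2) := by
  have hF := F_pos h.t0 h.e0
  have hGw := G_pos h.t0 h.e0
  have hθ : 0 < θ := by have := h.th; linarith
  have hqt := qt_pos h
  have hqt1 : q * θ < 1 := by have := qt_le h; have := h.qt; linarith
  set a : ℕ → ℝ := fun i => ‖φ i‖ with ha
  have hFq : ∀ n, Fw τ η (n + 1) * q ^ (n + 1) ≤ (q * θ) ^ (n + 1) := by
    intro n
    rw [mul_pow, mul_comm]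
    exact mul_le_mul_of_nonneg_left (F_le_pow h.t0 h.e0 h.th h.e4 (n + 1))
      (pow_nonneg h.q0.le _)
  have hFq1 : ∀ n, Fw τ η (n + 1) * q ^ (n + 1) ≤ Gw τ η (n + 1) := by
    intro n
    unfold Gw
    rw [mul_comm]
    exact mul_le_mul_of_nonneg_right (h.eq' (n + 1)) (hF _).le
  have hFq0 : ∀ n, Fw τ η (n + 1) * q ^ (n + 1) ≤ Gw τ η n := by
    intro n
    have h4 := F_succ_le h.t0 h.e0 h.e4 n
    have h5 : q ^ (n + 1) ≤ q * η n := by
      rw [pow_succ']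
      exact mul_le_mul_of_nonneg_left (h.eq' n) h.q0.le
    calc _ ≤ (θ * Fw τ η n) * (q * η n) :=
          mul_le_mul h4 h5 (pow_nonneg h.q0.le _) (mul_nonneg hθ.le (hF n).le)
      _ = (q * θ) * Gw τ η n := by unfold Gw; ring
      _ ≤ 1 * Gw τ η n := mul_le_mul_of_nonneg_right hqt1.le (hGw n).le
      _ = _ := one_mul _
  have h1 : ∀ n ∈ range N, |Fw τ η (n + 1) * (g (n + 1) * conj (φ (n + 2) - φ n)).re| ≤
      G ^ 2 / ε * (q * θ) ^ (n + 1) + ε / 2 * (Gw τ η (n + 1) * a (n + 2) ^ 2) +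
        ε / 2 * (Gw τ η n * a n ^ 2) := by
    intro n _
    rw [abs_mul, abs_of_pos (hF _)]
    have h2 : |(g (n + 1) * conj (φ (n + 2) - φ n)).re| ≤
        q ^ (n + 1) * (G * (a (n + 2) + a n)) := by
      refine (Complex.abs_re_le_norm _).trans ?_
      rw [norm_mul, Complex.norm_conj]
      have h3 := norm_sub_le (φ (n + 2)) (φ n)
      calc _ ≤ (G * q ^ (n + 1)) * (a (n + 2) + a n) :=
            mul_le_mul (hg (n + 1)) h3 (norm_nonneg _)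
              (mul_nonneg hG0 (pow_nonneg h.q0.le _))
        _ = _ := by ring
    have h3 : G * (a (n + 2) + a n) ≤ G ^ 2 / ε + ε / 2 * a (n + 2) ^ 2 + ε / 2 * a n ^ 2 := by
      have h4 : ∀ x : ℝ, G * x ≤ G ^ 2 / (2 * ε) + ε / 2 * x ^ 2 := by
        intro x
        have h5 : 0 ≤ (G - ε * x) ^ 2 / (2 * ε) := by positivity
        have h6 : (G - ε * x) ^ 2 / (2 * ε) = G ^ 2 / (2 * ε) - G * x + ε / 2 * x ^ 2 := by
          field_simp
          ring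
        linarith
      have h5 := h4 (a (n + 2))
      have h6 := h4 (a n)
      have h7 : G ^ 2 / ε = G ^ 2 / (2 * ε) + G ^ 2 / (2 * ε) := by
        field_simp
        ring
      rw [h7]
      linarith
    have hP : 0 ≤ Fw τ η (n + 1) * q ^ (n + 1) := mul_nonneg (hF _).le (pow_nonneg h.q0.le _)
    calc _ ≤ Fw τ η (n + 1) * (q ^ (n + 1) * (G * (a (n + 2) + a n))) :=
          mul_le_mul_of_nonneg_left h2 (hF _).le
      _ = Fw τ η (n + 1) * q ^ (n + 1) * (G * (a (n + 2) + a n)) := by ring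
      _ ≤ Fw τ η (n + 1) * q ^ (n + 1) * (G ^ 2 / ε + ε / 2 * a (n + 2) ^ 2 + ε / 2 * a n ^ 2) :=
          mul_le_mul_of_nonneg_left h3 hP
      _ = G ^ 2 / ε * (Fw τ η (n + 1) * q ^ (n + 1)) +
          ε / 2 * a (n + 2) ^ 2 * (Fw τ η (n + 1) * q ^ (n + 1)) +
          ε / 2 * a n ^ 2 * (Fw τ η (n + 1) * q ^ (n + 1)) := by ring
      _ ≤ G ^ 2 / ε * (q * θ) ^ (n + 1) + ε / 2 * a (n + 2) ^ 2 * Gw τ η (n + 1) +
          ε / 2 * a n ^ 2 * Gw τ η n :=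
          add_le_add (add_le_add (mul_le_mul_of_nonneg_left (hFq n) (by positivity))
            (mul_le_mul_of_nonneg_left (hFq1 n) (by positivity)))
            (mul_le_mul_of_nonneg_left (hFq0 n) (by positivity))
      _ = _ := by ring
  refine (abs_sum_le_sum_abs _ _).trans ((sum_le_sum h1).trans ?_)
  rw [sum_add_distrib, sum_add_distrib, ← mul_sum, ← mul_sum, ← mul_sum]
  have h2 : ∑ n ∈ range N, (q * θ) ^ (n + 1) ≤ Bc q θ := by
    have h5 := sum_x h 0 (N + 1)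
    rw [sum_range_succ'] at h5
    have h6 : ∀ n, nd 0 n = n := fun n => by unfold nd; omega
    simp only [h6, pow_zero] at h5
    linarith
  have h3 : ∑ n ∈ range N, Gw τ η (n + 1) * a (n + 2) ^ 2 ≤
      En τ η a N + 3 * q⁻¹ ^ 2 * (Fw τ η N * Y ^ 2) := by
    have h4 : ∑ n ∈ range (N + 1), Gw τ η n * a (n + 1) ^ 2 =
        ∑ n ∈ range N, Gw τ η (n + 1) * a (n + 2) ^ 2 + Gw τ η 0 * a (0 + 1) ^ 2 :=
      sum_range_succ' (fun n => Gw τ η n * a (n + 1) ^ 2) N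
    have h5 : ∑ n ∈ range (N + 1), Gw τ η n * a (n + 1) ^ 2 =
        ∑ n ∈ range N, Gw τ η n * a (n + 1) ^ 2 + Gw τ η N * a (N + 1) ^ 2 :=
      sum_range_succ _ _
    have h6 := En_add h a N
    have h7 : 0 ≤ Gw τ η 0 * a (0 + 1) ^ 2 := mul_nonneg (hGw 0).le (sq_nonneg _)
    have h8 : Gw τ η N * a (N + 1) ^ 2 ≤ 3 * q⁻¹ ^ 2 * (Fw τ η N * Y ^ 2) := by
      have h9 : Gw τ η N ≤ 3 * Fw τ η N := by
        unfold Gw
        exact mul_le_mul_of_nonneg_right (h.e3 N) (hF N).le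
      have h10 : a (N + 1) ^ 2 ≤ (q⁻¹ * Y) ^ 2 := by
        rw [← sq_abs]
        exact pow_le_pow_left₀ (abs_nonneg _) (Y_N1 h.q0 h.q1 hY) 2
      calc _ ≤ (3 * Fw τ η N) * (q⁻¹ * Y) ^ 2 :=
            mul_le_mul h9 h10 (sq_nonneg _) (mul_nonneg (by norm_num) (hF N).le)
        _ = _ := by ring
    linarith
  have h4 := sumG_le h a N
  have h5 := mul_le_mul_of_nonneg_left h2 (by positivity : 0 ≤ G ^ 2 / ε)
  have h6 := mul_le_mul_of_nonneg_left h3 (by positivity : 0 ≤ ε / 2)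
  have h7 := mul_le_mul_of_nonneg_left h4 (by positivity : 0 ≤ ε / 2)
  have h8 : G ^ 2 / ε * Bc q θ = Bc q θ / ε * G ^ 2 := by ring
  have h9 : 0 ≤ ε * q⁻¹ ^ 2 * (Fw τ η N * Y ^ 2) :=
    mul_nonneg (by positivity) (mul_nonneg (hF N).le (sq_nonneg _))
  have h10 : ε / 2 * (3 * q⁻¹ ^ 2 * (Fw τ η N * Y ^ 2)) =
      3 / 2 * (ε * q⁻¹ ^ 2 * (Fw τ η N * Y ^ 2)) := by ring
  have h11 : 2 * ε * q⁻¹ ^ 2 * (Fw τ η N * Y ^ 2) =
      2 * (ε * q⁻¹ ^ 2 * (Fw τ η N * Y ^ 2)) := by ring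
  linarith

theorem phi01_le (h : Wts q θ κ τ η) (a : ℕ → ℝ) (N : ℕ) (hN : 1 ≤ N) :
    a 0 ^ 2 + a 1 ^ 2 ≤ En τ η a N := by
  refine le_trans ?_ (En_mono h a hN)
  unfold En
  rw [sum_range_one]
  have h1 : (1 : ℝ) ≤ Gw τ η 0 := by
    unfold Gw
    rw [F_zero, mul_one]
    simpa using h.eq' 0
  have h4 := mul_le_mul_of_nonneg_right h1 (add_nonneg (sq_nonneg (a 0)) (sq_nonneg (a 1)))
  simp only [zero_add]
  linarith

/-- the missing term at the origin -/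
theorem x0term (h : Wts q θ κ τ η) {l C : ℝ} (hl1 : |l| ≤ 1) {S0 : ℕ → ℂ} {h0 : ℂ} {v0 : ℝ}
    (hv0 : |v0| ≤ 3 * κ) {M : ℕ} (hM : N + 1 ≤ M) (hN : 1 ≤ N)
    (hS0 : ∀ m, ‖S0 m‖ ≤ κ * q ^ m)
    (hh : ‖h0 - (l : ℂ) * ∑ m ∈ range M, S0 m * φ m‖ ≤ C * q ^ M)
    (hY : ∀ s : Finset ℕ, ∑ i ∈ s, q ^ nd i N * |‖φ i‖| ≤ Y) :
    |(-((l : ℂ) / 2) * ((v0 : ℂ) * φ 0 + h0) * conj (φ 1)).re| ≤
      |l| * (κ * (1 + Bc q θ)) * En τ η (fun i => ‖φ i‖) N + |l| * κ * (Fw τ η N * Y ^ 2) +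
        C * ‖φ 1‖ / 2 * q ^ M := by
  have hk := h.k0
  have hY0 := Y_nonneg hY
  have hB := Bc_pos h
  have hF1 := one_le_F h N
  set a : ℕ → ℝ := fun i => ‖φ i‖ with ha
  have ha0 : ∀ i, 0 ≤ a i := fun i => norm_nonneg _
  have hE := phi01_le h a N hN
  have hE0 := En_nonneg h a N
  have hl0 := abs_nonneg l
  -- bound for ‖h0‖ ‖φ 1‖
  have hsum : ‖∑ m ∈ range M, S0 m * φ m‖ * a 1 ≤
      κ * (1 + Bc q θ) / 2 * En τ η a N + 2 * κ * (Fw τ η N * Y ^ 2) := by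
    have h1 : ‖∑ m ∈ range M, S0 m * φ m‖ ≤ κ * ∑ m ∈ range M, q ^ m * a m := by
      refine (norm_sum_le _ _).trans ?_
      rw [mul_sum]
      refine sum_le_sum fun m _ => ?_
      rw [norm_mul]
      have := mul_le_mul_of_nonneg_right (hS0 m) (ha0 m)
      linarith
    have h2 : ∑ m ∈ range M, q ^ m * a m = ∑ m ∈ range N, q ^ m * a m +
        ∑ m ∈ Ico N M, q ^ m * a m := (sum_range_add_sum_Ico _ (by omega)).symm
    have h3 : (∑ m ∈ Ico N M, q ^ m * a m) * a 1 ≤ Fw τ η N * Y ^ 2 := by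
      have h4 : ∑ m ∈ Ico N M, q ^ m * a m ≤ q ^ N * Y := by
        have h5 : ∑ m ∈ Ico N M, q ^ m * a m = q ^ N * ∑ m ∈ Ico N M, q ^ nd m N * |a m| := by
          rw [mul_sum]
          refine sum_congr rfl fun m hm => ?_
          have hm' := mem_Ico.1 hm
          have : q ^ m = q ^ N * q ^ nd m N := by
            rw [← pow_add]
            congr 1
            unfold nd
            omega
          rw [this, abs_of_nonneg (ha0 m)]
          ring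
        rw [h5]
        exact mul_le_mul_of_nonneg_left (hY _) (pow_nonneg h.q0.le _)
      have h6 : q ^ N * a 1 ≤ Y := by
        have h7 := hY {1}
        rw [sum_singleton] at h7
        refine le_trans ?_ h7
        rw [abs_norm]
        exact mul_le_mul_of_nonneg_right
          (pow_le_pow_of_le_one h.q0.le h.q1.le (by unfold nd; omega)) (norm_nonneg _)
      calc _ ≤ (q ^ N * Y) * a 1 := mul_le_mul_of_nonneg_right h4 (ha0 1)
        _ = Y * (q ^ N * a 1) := by ring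
        _ ≤ Y * Y := mul_le_mul_of_nonneg_left h6 hY0
        _ = 1 * Y ^ 2 := by ring
        _ ≤ Fw τ η N * Y ^ 2 := mul_le_mul_of_nonneg_right hF1 (sq_nonneg _)
    have h4 : (∑ m ∈ range N, q ^ m * a m) * a 1 ≤ (1 + Bc q θ) / 2 * En τ η a N := by
      have h5 : (∑ m ∈ range N, q ^ m * a m) * a 1 ≤
          ∑ m ∈ range N, (1 / 2 * (Gw τ η m * a m ^ 2) + 1 / 2 * a 1 ^ 2 * (q * θ) ^ nd 0 m) := by
        rw [sum_mul]
        refine sum_le_sum fun m _ => ?_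
        have h6 : a m * a 1 ≤ (a m ^ 2 + a 1 ^ 2) / 2 := by nlinarith [sq_nonneg (a m - a 1)]
        have h7 : q ^ m ≤ Gw τ η m := by
          unfold Gw
          have := mul_le_mul (h.eq' m) (one_le_F h m) zero_le_one (h.e0 m).le
          linarith
        have h8 : q ^ m ≤ (q * θ) ^ nd 0 m := by
          have : nd 0 m = m := by unfold nd; omega
          rw [this]
          exact pow_le_pow_left₀ h.q0.le (by have := mul_lt_mul_of_pos_left h.th h.q0; linarith) _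
        have h9 := mul_le_mul_of_nonneg_left h6 (pow_nonneg h.q0.le m)
        have h10 := mul_le_mul_of_nonneg_right h7 (sq_nonneg (a m))
        have h11 := mul_le_mul_of_nonneg_right h8 (sq_nonneg (a 1))
        nlinarith
      refine h5.trans ?_
      rw [sum_add_distrib, ← mul_sum, ← mul_sum]
      have h6 := sumG_le h a N
      have h7 := mul_le_mul_of_nonneg_left (sum_x h 0 N) (sq_nonneg (a 1))
      have h8 : a 1 ^ 2 * Bc q θ ≤ En τ η a N * Bc q θ := by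
        refine mul_le_mul_of_nonneg_right ?_ hB.le
        have := sq_nonneg (a 0)
        linarith
      nlinarith
    have h5 : 0 ≤ Fw τ η N * Y ^ 2 := mul_nonneg (by linarith) (sq_nonneg _)
    calc _ ≤ (κ * ∑ m ∈ range M, q ^ m * a m) * a 1 := mul_le_mul_of_nonneg_right h1 (ha0 1)
      _ = κ * ((∑ m ∈ range N, q ^ m * a m) * a 1 + (∑ m ∈ Ico N M, q ^ m * a m) * a 1) := by
        rw [h2]; ring
      _ ≤ κ * ((1 + Bc q θ) / 2 * En τ η a N + Fw τ η N * Y ^ 2) :=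
        mul_le_mul_of_nonneg_left (add_le_add h4 h3) hk.le
      _ ≤ _ := by nlinarith [mul_nonneg hk.le h5]
  have hh0 : ‖h0‖ ≤ ‖∑ m ∈ range M, S0 m * φ m‖ + C * q ^ M := by
    have h1 : h0 = (h0 - (l : ℂ) * ∑ m ∈ range M, S0 m * φ m) +
        (l : ℂ) * ∑ m ∈ range M, S0 m * φ m := by ring
    calc ‖h0‖ ≤ ‖h0 - (l : ℂ) * ∑ m ∈ range M, S0 m * φ m‖ +
          ‖(l : ℂ) * ∑ m ∈ range M, S0 m * φ m‖ := by
            conv_lhs => rw [h1]
            exact norm_add_le _ _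
      _ ≤ C * q ^ M + 1 * ‖∑ m ∈ range M, S0 m * φ m‖ := by
            refine add_le_add hh ?_
            rw [norm_mul, Complex.norm_real, Real.norm_eq_abs]
            exact mul_le_mul_of_nonneg_right hl1 (norm_nonneg _)
      _ = _ := by ring
  have hv : |v0| * a 0 * a 1 ≤ 3 * κ / 2 * En τ η a N := by
    have h1 : a 0 * a 1 ≤ (a 0 ^ 2 + a 1 ^ 2) / 2 := by nlinarith [sq_nonneg (a 0 - a 1)]
    calc _ = |v0| * (a 0 * a 1) := by ring
      _ ≤ (3 * κ) * ((a 0 ^ 2 + a 1 ^ 2) / 2) :=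
        mul_le_mul hv0 h1 (mul_nonneg (ha0 0) (ha0 1)) (by linarith)
      _ ≤ (3 * κ) * (En τ η a N / 2) := mul_le_mul_of_nonneg_left (by linarith) (by linarith)
      _ = _ := by ring
  have h1 : |(-((l : ℂ) / 2) * ((v0 : ℂ) * φ 0 + h0) * conj (φ 1)).re| ≤
      |l| / 2 * ((|v0| * a 0 + ‖h0‖) * a 1) := by
    refine (Complex.abs_re_le_norm _).trans ?_
    rw [norm_mul, norm_mul, norm_neg, norm_div, Complex.norm_real, Complex.norm_ofNat,
      Complex.norm_conj, Real.norm_eq_abs]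
    have h2 : ‖(v0 : ℂ) * φ 0 + h0‖ ≤ |v0| * a 0 + ‖h0‖ := by
      refine (norm_add_le _ _).trans ?_
      rw [norm_mul, Complex.norm_real, Real.norm_eq_abs]
    rw [mul_assoc]
    exact mul_le_mul_of_nonneg_left (mul_le_mul_of_nonneg_right h2 (norm_nonneg _)) (by positivity)
  have h2 : (|v0| * a 0 + ‖h0‖) * a 1 ≤ 3 * κ / 2 * En τ η a N +
      (κ * (1 + Bc q θ) / 2 * En τ η a N + 2 * κ * (Fw τ η N * Y ^ 2)) + C * a 1 * q ^ M := by
    have h3 := mul_le_mul_of_nonneg_right hh0 (ha0 1)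
    have h4 : (|v0| * a 0 + ‖h0‖) * a 1 = |v0| * a 0 * a 1 + ‖h0‖ * a 1 := by ring
    have h5 : (‖∑ m ∈ range M, S0 m * φ m‖ + C * q ^ M) * a 1 =
      ‖∑ m ∈ range M, S0 m * φ m‖ * a 1 + C * a 1 * q ^ M := by ring
    rw [h4]
    rw [h5] at h3
    linarith
  have h3 := mul_le_mul_of_nonneg_left h2 (by positivity : 0 ≤ |l| / 2)
  refine h1.trans (h3.trans ?_)
  have h4 : 0 ≤ C * q ^ M := (norm_nonneg _).trans hh
  have h5 : 0 ≤ C * a 1 * q ^ M := by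
    have := mul_nonneg h4 (ha0 1)
    linarith
  have h6 : |l| / 2 * (C * a 1 * q ^ M) ≤ 1 / 2 * (C * a 1 * q ^ M) :=
    mul_le_mul_of_nonneg_right (by linarith) h5
  have h7 : 0 ≤ |l| * κ * En τ η a N := mul_nonneg (mul_nonneg hl0 hk.le) hE0
  have h8 : 0 ≤ |l| * κ * Bc q θ * En τ η a N :=
    mul_nonneg (mul_nonneg (mul_nonneg hl0 hk.le) hB.le) hE0
  have e1 : |l| / 2 * (3 * κ / 2 * En τ η a N +
      (κ * (1 + Bc q θ) / 2 * En τ η a N + 2 * κ * (Fw τ η N * Y ^ 2)) + C * a 1 * q ^ M) =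
      |l| * κ * En τ η a N + 1 / 4 * (|l| * κ * Bc q θ * En τ η a N) +
        |l| * κ * (Fw τ η N * Y ^ 2) + |l| / 2 * (C * a 1 * q ^ M) := by ring
  have e2 : |l| * (κ * (1 + Bc q θ)) * En τ η a N = |l| * κ * En τ η a N +
      |l| * κ * Bc q θ * En τ η a N := by ring
  rw [e1, e2]
  have e3 : C * ‖φ 1‖ / 2 * q ^ M = 1 / 2 * (C * a 1 * q ^ M) := by
    rw [ha]
    ring
  rw [e3]
  linarith

end Pool.Agent.Helper34.PG
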