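import Pool.Agent.Helper34.PG.Vc3

/-!
# The quantitative virial lemma, complex energies: the main inequality
-/

set_option autoImplicit false

namespace Pool.Agent.Helper34.PG

open Finset Filter Topology ComplexConjugate

theorem exY' {q : ℝ} (hq : 0 < q) (hq1 : q < 1) {a : ℕ → ℝ} {U : ℝ}
    (hU : ∀ K, ∑ n ∈ range K, a n ^ 2 ≤ U) :
    ∃ Y : ℕ → ℝ, (∀ N, ∀ s : Finset ℕ, ∑ i ∈ s, q ^ nd i N * |a i| ≤ Y N) ∧
      ∀ K, ∑ N ∈ range K, Y N ^ 2 ≤ (2 / (1 - q)) ^ 2 * U := by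
  have hφ : Summable fun n => a n ^ 2 := summable_of_sum_range_le (fun n => sq_nonneg _) hU
  have hU' : ∑' n, a n ^ 2 ≤ U := Real.tsum_le_of_sum_range_le (fun n => sq_nonneg _) hU
  have hB : 0 < 2 / (1 - q) := div_pos two_pos (by linarith)
  have hle1 : ∀ i N, q ^ nd i N ≤ 1 := fun i N => pow_le_one₀ hq.le hq1.le
  have hnn : ∀ i N, 0 ≤ q ^ nd i N * a i ^ 2 := fun i N =>
    mul_nonneg (pow_nonneg hq.le _) (sq_nonneg _)
  have hsZ : ∀ N, Summable fun i => q ^ nd i N * a i ^ 2 := fun N =>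
    Summable.of_nonneg_of_le (fun i => hnn i N)
      (fun i => by have := mul_le_mul_of_nonneg_right (hle1 i N) (sq_nonneg (a i)); linarith) hφ
  have hZ0 : ∀ N, 0 ≤ ∑' i, q ^ nd i N * a i ^ 2 := fun N => tsum_nonneg fun i => hnn i N
  refine ⟨fun N => Real.sqrt (2 / (1 - q) * ∑' i, q ^ nd i N * a i ^ 2), fun N s => ?_,
    fun K => ?_⟩
  · apply Real.le_sqrt_of_sq_le
    have h1 := Finset.sum_mul_sq_le_sq_mul_sq s (fun i => Real.sqrt (q ^ nd i N))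
      (fun i => Real.sqrt (q ^ nd i N) * |a i|)
    have h2 : ∑ i ∈ s, Real.sqrt (q ^ nd i N) * (Real.sqrt (q ^ nd i N) * |a i|) =
        ∑ i ∈ s, q ^ nd i N * |a i| := sum_congr rfl fun i _ => by
      rw [← mul_assoc, Real.mul_self_sqrt (pow_nonneg hq.le _)]
    have h3 : ∑ i ∈ s, Real.sqrt (q ^ nd i N) ^ 2 = ∑ i ∈ s, q ^ nd i N :=
      sum_congr rfl fun i _ => Real.sq_sqrt (pow_nonneg hq.le _)
    have h4 : ∑ i ∈ s, (Real.sqrt (q ^ nd i N) * |a i|) ^ 2 = ∑ i ∈ s, q ^ nd i N * a i ^ 2 :=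
      sum_congr rfl fun i _ => by
        rw [mul_pow, Real.sq_sqrt (pow_nonneg hq.le _), sq_abs]
    rw [h2, h3, h4] at h1
    refine h1.trans (mul_le_mul (sum_nd_fin hq hq1 N s) ((hsZ N).sum_le_tsum s fun i _ => hnn i N)
      (sum_nonneg fun i _ => hnn i N) hB.le)
  · have e : ∀ N, Real.sqrt (2 / (1 - q) * ∑' i, q ^ nd i N * a i ^ 2) ^ 2 =
        2 / (1 - q) * ∑' i, q ^ nd i N * a i ^ 2 := fun N =>
      Real.sq_sqrt (mul_nonneg hB.le (hZ0 N))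
    simp only [e]
    rw [← mul_sum, sq, mul_assoc]
    refine mul_le_mul_of_nonneg_left ?_ hB.le
    rw [← Summable.tsum_finsetSum fun N _ => hsZ N]
    have h1 : ∑' i, ∑ N ∈ range K, q ^ nd i N * a i ^ 2 ≤ ∑' i, 2 / (1 - q) * a i ^ 2 := by
      refine Summable.tsum_le_tsum (fun i => ?_) (summable_sum fun N _ => hsZ N) (hφ.mul_left _)
      rw [← sum_mul]
      exact mul_le_mul_of_nonneg_right (sum_nd_le hq hq1 i K) (sq_nonneg _)
    refine h1.trans ?_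
    rw [tsum_mul_left]
    exact mul_le_mul_of_nonneg_left hU' hB.le

theorem final_alg4 {E FY D Wt A0 YS FH GS VS KS ES X0 l al a a' x b b' x' gg gy
    ε w P C r r' T yy U2 : ℝ}
    (hlow : D + T * E ≤ A0) (hen : A0 = Wt - (YS + FH + GS))
    (hFH : FH = -(l / 2) * VS - l ^ 2 / 2 * KS - l / 2 * ES - X0) (hW : Wt ≤ w * FY)
    (hYS : |YS| ≤ yy) (hGS : |GS| ≤ gg + ε * E + gy)
    (hv1 : l / 2 * VS ≤ al / 2 * (a * E + b * FY))
    (hk1 : l ^ 2 / 2 * KS ≤ al / 2 * (a' * E + b' * FY + U2))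
    (he1 : l / 2 * ES ≤ al / 2 * (P * C * r))
    (hX : |X0| ≤ al * x * E + x' + r')
    (hlE : al * ((a + a') / 2 + x) * E + ε * E ≤ T / 2 * E) :
    D + T / 2 * E ≤ w * FY + yy + gg + gy + (al / 2 * (b * FY) + al / 2 * (b' * FY)) +
      al / 2 * U2 + x' + (al / 2 * (P * C * r) + r') := by
  have h1 : al / 2 * (a * E + b * FY) = al / 2 * a * E + al / 2 * (b * FY) := by ring
  have h2 : al / 2 * (a' * E + b' * FY + U2) = al / 2 * a' * E + al / 2 * (b' * FY) +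
    al / 2 * U2 := by ring
  have h3 : al * ((a + a') / 2 + x) * E = al / 2 * a * E + al / 2 * a' * E + al * x * E := by ring
  have h6 : T / 2 * E = T * E - T / 2 * E := by ring
  have h7 : -(l / 2) * VS = -(l / 2 * VS) := by ring
  have h8 := (abs_le.1 hYS).1
  have h9 := (abs_le.1 hGS).1
  have h10 := (abs_le.1 hX).1
  have h11 := (abs_le.1 hX).2
  linarith

/-- the constants -/
noncomputable def Ca4 (q κ δ τ : ℝ) : ℝ :=
  2 * (1 + q⁻¹ ^ 2) + 2 * (τ * δ / 4) * q⁻¹ ^ 2 + 5 * κ * q⁻¹ + κ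

noncomputable def Cb4 (q κ : ℝ) : ℝ := 1 + κ * (2 / (1 - q))

noncomputable def Cl4 (q θ κ τ : ℝ) : ℝ :=
  (κ * (1 + θ / 2) + (Ac θ κ τ * Bc q θ / 2 + κ / 2 * (1 + Bc q θ))) / 2 + κ * (1 + Bc q θ)

theorem ineq4 {q θ κ δ τ y U G l c C : ℝ} {η : ℕ → ℝ} (h : Wts q θ κ τ η) (hδ : 0 < δ)
    (hl1 : |l| ≤ 1) (hl : |l| * Cl4 q θ κ τ ≤ τ * δ / 4)
    (hc : |c| ≤ 1 - δ) (hy : 0 ≤ y) {φ hh g : ℕ → ℂ} {v : ℕ → ℝ} {S : ℕ → ℕ → ℕ → ℂ}
    (hG0 : 0 ≤ G) (hU : ∀ K, ∑ n ∈ range K, ‖φ n‖ ^ 2 ≤ U)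
    (hrec : ∀ n, φ (n + 2) + φ n = (2 * (c : ℂ) + (y : ℂ) * Complex.I / 2) * φ (n + 1) -
      (l : ℂ) / 2 * ((v (n + 1) : ℂ) * φ (n + 1) + hh (n + 1)) + g (n + 1))
    (hg : ∀ n, ‖g n‖ ≤ G * q ^ n)
    (hS : ∀ M n, ‖hh n - (l : ℂ) * ∑ m ∈ range (n + M), S M n m * φ m‖ ≤ C * q ^ M)
    (hK : ∀ M, KerC q κ y η (S M)) (hv : ∀ n, |v n| ≤ κ * η n) {N : ℕ} (hN : 1 ≤ N) {Y : ℝ}
    (hY : ∀ s : Finset ℕ, ∑ i ∈ s, q ^ nd i N * |‖φ i‖| ≤ Y) :
    δ * (‖φ 0‖ ^ 2 + ‖φ 1‖ ^ 2) + τ * δ / 2 * En τ η (fun i => ‖φ i‖) N ≤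
      Ca4 q κ δ τ * (Fw τ η N * Y ^ 2) + Cb4 q κ * (y * (Fw τ η N * U)) +
        Bc q θ / (τ * δ / 4) * G ^ 2 := by
  have hF := F_pos h.t0 h.e0
  have hG := G_pos h.t0 h.e0
  have hk := h.k0
  have hτ := h.t0
  have hY0 := Y_nonneg hY
  have hU0 : 0 ≤ U := by simpa using hU 0
  set a : ℕ → ℝ := fun i => ‖φ i‖ with ha
  have hE := En_nonneg h a N
  have hqi : 0 < q⁻¹ := inv_pos.2 h.q0
  have hq1 : 0 < 1 - q := by have := h.q1; linarith
  have hFY : 0 ≤ Fw τ η N * Y ^ 2 := mul_nonneg (hF N).le (sq_nonneg _)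
  have hFU : 0 ≤ Fw τ η N * U := mul_nonneg (hF N).le hU0
  have hc1 : |c| ≤ 1 := by linarith
  have hl2 : l ^ 2 ≤ |l| := by
    rw [← sq_abs]
    have := mul_le_mul_of_nonneg_left hl1 (abs_nonneg l)
    nlinarith
  set P : ℝ := ∑ n ∈ range (N + 1), Fw τ η n * ‖conj (φ (n + 1) - psc φ n)‖ with hP
  have hP0 : 0 ≤ P := sum_nonneg fun n _ => mul_nonneg (hF n).le (norm_nonneg _)
  -- lower bound of the left side
  have hlow : δ * (‖φ 0‖ ^ 2 + ‖φ 1‖ ^ 2) + τ * δ * En τ η a N ≤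
      Wl c φ 0 + ∑ n ∈ range N, τ * Gw τ η n * Wl c φ n := by
    have h0 := Wl_ge hc φ 0
    have h1 : τ * δ * En τ η a N = ∑ n ∈ range N, τ * Gw τ η n *
        (δ * (a n ^ 2 + a (n + 1) ^ 2)) := by
      unfold En
      rw [mul_sum]
      exact sum_congr rfl fun n _ => by ring
    rw [h1]
    exact add_le_add h0 (sum_le_sum fun n _ =>
      mul_le_mul_of_nonneg_left (Wl_ge hc φ n) (mul_nonneg h.t0.le (hG n).le))
  -- the boundary term of the energy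
  have hW : Fw τ η N * Wl c φ N ≤ 2 * (1 + q⁻¹ ^ 2) * (Fw τ η N * Y ^ 2) := by
    have h2 : ‖φ N‖ ^ 2 ≤ Y ^ 2 := by
      have := pow_le_pow_left₀ (abs_nonneg _) (Y_N hY) 2
      rwa [sq_abs] at this
    have h3 : ‖φ (N + 1)‖ ^ 2 ≤ q⁻¹ ^ 2 * Y ^ 2 := by
      have := pow_le_pow_left₀ (abs_nonneg _) (Y_N1 h.q0 h.q1 hY) 2
      rwa [sq_abs, mul_pow] at this
    have h4 := Wl_le hc1 φ N
    have h7 := mul_le_mul_of_nonneg_left (by linarith : Wl c φ N ≤ 2 * (Y ^ 2 + q⁻¹ ^ 2 * Y ^ 2))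
      (hF N).le
    linarith
  -- the functions
  set fh : ℕ → ℂ := fun n => -((l : ℂ) / 2) * ((v n : ℂ) * φ n + hh n) with hfh
  set f : ℕ → ℂ := fun n => (y : ℂ) * Complex.I / 2 * φ n + fh n + g n with hf
  have hrec' : ∀ n, φ (n + 2) + φ n = 2 * (c : ℂ) * φ (n + 1) + f (n + 1) := by
    intro n
    rw [hrec n, hf, hfh]
    simp only
    ring
  have hen := energyC τ η c φ f hrec' N
  set YS : ℝ := ∑ n ∈ range N, Fw τ η (n + 1) *
      ((y : ℂ) * Complex.I / 2 * φ (n + 1) * conj (φ (n + 2) - φ n)).re with hYS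
  set GS : ℝ := ∑ n ∈ range N, Fw τ η (n + 1) * (g (n + 1) * conj (φ (n + 2) - φ n)).re with hGS
  set FH : ℝ := ∑ n ∈ range N, Fw τ η (n + 1) * (fh (n + 1) * conj (φ (n + 2) - φ n)).re with hFH
  have hsplit0 : ∑ n ∈ range N, Fw τ η (n + 1) * (f (n + 1) * conj (φ (n + 2) - φ n)).re =
      YS + FH + GS := by
    rw [hYS, hFH, hGS, ← sum_add_distrib, ← sum_add_distrib]
    refine sum_congr rfl fun n _ => ?_
    rw [hf]
    simp only [add_mul, Complex.add_re]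
    ring
  rw [hsplit0] at hen
  have hYSb : |YS| ≤ y * (Fw τ η N * U) := yterm h hy hU
  have hε : 0 < τ * δ / 4 := by positivity
  have hGSb : |GS| ≤ Bc q θ / (τ * δ / 4) * G ^ 2 + τ * δ / 4 * En τ η a N +
      2 * (τ * δ / 4) * q⁻¹ ^ 2 * (Fw τ η N * Y ^ 2) := gterm h hε hG0 hg hY
  -- the main part
  have hFH1 : FH = (∑ n ∈ range (N + 1), (Fw τ η n : ℂ) * fh n * conj (φ (n + 1) - psc φ n)).re -
      (fh 0 * conj (φ 1)).re := by
    rw [sum_range_succ', Complex.add_re]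
    have h1 : ((Fw τ η 0 : ℂ) * fh 0 * conj (φ (0 + 1) - psc φ 0)).re = (fh 0 * conj (φ 1)).re := by
      rw [F_zero]
      simp [psc]
    rw [h1, add_sub_cancel_right, hFH, Complex.re_sum]
    refine sum_congr rfl fun n _ => ?_
    rw [mul_assoc (Fw τ η (n + 1) : ℂ), Complex.re_ofReal_mul]
    rfl
  have hM : ∀ M, N + 1 ≤ M → δ * (‖φ 0‖ ^ 2 + ‖φ 1‖ ^ 2) + τ * δ / 2 * En τ η a N ≤
      Ca4 q κ δ τ * (Fw τ η N * Y ^ 2) + Cb4 q κ * (y * (Fw τ η N * U)) +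
        Bc q θ / (τ * δ / 4) * G ^ 2 + (|l| / 2 * P * C + C * ‖φ 1‖ / 2) * q ^ M := by
    intro M hNM
    set t : ℕ → ℂ := fun n => ∑ m ∈ Ico (N + 1) (n + M), S M n m * φ m with ht
    set e : ℕ → ℂ := fun n => hh n - (l : ℂ) * ∑ m ∈ range (n + M), S M n m * φ m with he
    have hhh : ∀ n ∈ range (N + 1), hh n =
        (l : ℂ) * (∑ m ∈ range (N + 1), S M n m * φ m + t n) + e n := by
      intro n _
      have : ∑ m ∈ range (n + M), S M n m * φ m =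
          ∑ m ∈ range (N + 1), S M n m * φ m + t n := by
        rw [ht]
        simp only
        rw [sum_range_add_sum_Ico _ (by omega : N + 1 ≤ n + M)]
      rw [← this, he]
      ring
    have htb : ∀ n ∈ range (N + 1), ‖t n‖ ≤ κ * q ^ nd n N * Y := by
      intro n hn
      have hn' := mem_range.1 hn
      rw [ht]
      refine (norm_sum_le _ _).trans ?_
      have h1 : ∀ m ∈ Ico (N + 1) (n + M), ‖S M n m * φ m‖ ≤
          κ * q ^ nd n N * (q ^ nd m N * |a m|) := by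
        intro m hm
        have hm' := mem_Ico.1 hm
        rw [norm_mul]
        have h2 := (hK M).le n m
        have h3 : nd n m = nd n N + nd m N := by unfold nd; omega
        rw [h3, pow_add] at h2
        have h4 := mul_le_mul_of_nonneg_right h2 (norm_nonneg (φ m))
        have h5 : |a m| = ‖φ m‖ := abs_norm _
        rw [h5]
        linarith
      refine (sum_le_sum h1).trans ?_
      rw [← mul_sum]
      exact mul_le_mul_of_nonneg_left (hY _) (mul_nonneg hk.le (pow_nonneg h.q0.le _))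
    have hsplit : ∑ n ∈ range (N + 1), (Fw τ η n : ℂ) * fh n * conj (φ (n + 1) - psc φ n) =
        ((-(l / 2) : ℝ) : ℂ) * ∑ n ∈ range (N + 1), (Fw τ η n : ℂ) * ((v n : ℂ) * φ n) *
          conj (φ (n + 1) - psc φ n) -
        ((l ^ 2 / 2 : ℝ) : ℂ) * ∑ n ∈ range (N + 1), (Fw τ η n : ℂ) *
          (∑ m ∈ range (N + 1), S M n m * φ m + t n) * conj (φ (n + 1) - psc φ n) -
        ((l / 2 : ℝ) : ℂ) * ∑ n ∈ range (N + 1), (Fw τ η n : ℂ) * e n *
          conj (φ (n + 1) - psc φ n) := by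
      rw [mul_sum, mul_sum, mul_sum, ← sum_sub_distrib, ← sum_sub_distrib]
      refine sum_congr rfl fun n hn => ?_
      rw [hfh]
      simp only
      rw [hhh n hn]
      push_cast
      ring
    have hV := VC_le h hv hY
    have hKl := KC_le h hy (hK M) hY hU htb
    have hErr : |(∑ n ∈ range (N + 1), (Fw τ η n : ℂ) * e n * conj (φ (n + 1) - psc φ n)).re| ≤
        P * C * q ^ M := by
      refine (re_sum_le _ _).trans ?_
      rw [hP, sum_mul, sum_mul]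
      refine sum_le_sum fun n _ => ?_
      rw [norm_mul, norm_mul, Complex.norm_real, Real.norm_of_nonneg (hF n).le]
      have h1 := mul_le_mul_of_nonneg_left (hS M n)
        (mul_nonneg (hF n).le (norm_nonneg (conj (φ (n + 1) - psc φ n))))
      have h2 : ‖e n‖ = ‖hh n - (l : ℂ) * ∑ m ∈ range (n + M), S M n m * φ m‖ := rfl
      rw [h2]
      linarith
    set VS := (∑ n ∈ range (N + 1), (Fw τ η n : ℂ) * ((v n : ℂ) * φ n) *
          conj (φ (n + 1) - psc φ n)) with hVS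
    set KS := (∑ n ∈ range (N + 1), (Fw τ η n : ℂ) *
          (∑ m ∈ range (N + 1), S M n m * φ m + t n) * conj (φ (n + 1) - psc φ n)) with hKS
    set ES := (∑ n ∈ range (N + 1), (Fw τ η n : ℂ) * e n *
          conj (φ (n + 1) - psc φ n)) with hES
    have hFH2 : FH = -(l / 2) * VS.re - l ^ 2 / 2 * KS.re - l / 2 * ES.re -
        (fh 0 * conj (φ 1)).re := by
      rw [hFH1, hsplit, Complex.sub_re, Complex.sub_re, Complex.re_ofReal_mul,
        Complex.re_ofReal_mul, Complex.re_ofReal_mul]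
    have hv1 : l / 2 * VS.re ≤ |l| / 2 * (κ * (1 + θ / 2) * En τ η a N +
        6 * κ * q⁻¹ * (Fw τ η N * Y ^ 2)) := by
      have h1 : l / 2 * VS.re ≤ |l| / 2 * |VS.re| := by
        have : l * VS.re ≤ |l| * |VS.re| := by rw [← abs_mul]; exact le_abs_self _
        linarith
      exact h1.trans (mul_le_mul_of_nonneg_left hV (by positivity))
    have hk1 : l ^ 2 / 2 * KS.re ≤ |l| / 2 * ((Ac θ κ τ * Bc q θ / 2 + κ / 2 * (1 + Bc q θ)) *
        En τ η a N + 4 * κ * q⁻¹ * (Fw τ η N * Y ^ 2) +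
        2 * κ * y * (Fw τ η N * (2 / (1 - q) * U))) := by
      have h1 : l ^ 2 / 2 * KS.re ≤ l ^ 2 / 2 * |KS.re| :=
        mul_le_mul_of_nonneg_left (le_abs_self _) (by positivity)
      have h2 : l ^ 2 / 2 * |KS.re| ≤ |l| / 2 * |KS.re| :=
        mul_le_mul_of_nonneg_right (by linarith) (abs_nonneg _)
      exact h1.trans (h2.trans (mul_le_mul_of_nonneg_left hKl (by positivity)))
    have he1 : l / 2 * ES.re ≤ |l| / 2 * (P * C * q ^ M) := by
      have h1 : l / 2 * ES.re ≤ |l| / 2 * |ES.re| := by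
        have : l * ES.re ≤ |l| * |ES.re| := by rw [← abs_mul]; exact le_abs_self _
        linarith
      exact h1.trans (mul_le_mul_of_nonneg_left hErr (by positivity))
    have hX : |(fh 0 * conj (φ 1)).re| ≤ |l| * (κ * (1 + Bc q θ)) * En τ η a N +
        |l| * κ * (Fw τ η N * Y ^ 2) + C * ‖φ 1‖ / 2 * q ^ M := by
      have hv0 : |v 0| ≤ 3 * κ := by
        have h1 := hv 0
        have h2 := mul_le_mul_of_nonneg_left (h.e3 0) hk.le
        linarith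
      have h3 := hS M 0
      rw [zero_add] at h3
      exact x0term h hl1 hv0 hNM hN (fun m => by
        have := (hK M).b1 0 m
        rwa [zero_add] at this) h3 hY
    have hlE : |l| * ((κ * (1 + θ / 2) + (Ac θ κ τ * Bc q θ / 2 + κ / 2 * (1 + Bc q θ))) / 2 +
        κ * (1 + Bc q θ)) * En τ η a N + τ * δ / 4 * En τ η a N ≤ τ * δ / 2 * En τ η a N := by
      have h1 := mul_le_mul_of_nonneg_right hl hE
      unfold Cl4 at h1
      linarith
    have hfin := final_alg4 hlow hen hFH2 hW hYSb hGSb hv1 hk1 he1 hX hlE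
    refine hfin.trans ?_
    have h9 : |l| / 2 * (6 * κ * q⁻¹ * (Fw τ η N * Y ^ 2)) +
        |l| / 2 * (4 * κ * q⁻¹ * (Fw τ η N * Y ^ 2)) ≤ 5 * κ * q⁻¹ * (Fw τ η N * Y ^ 2) := by
      have h10 : 0 ≤ 5 * κ * q⁻¹ * (Fw τ η N * Y ^ 2) :=
        mul_nonneg (mul_nonneg (by linarith) hqi.le) hFY
      have h11 := mul_le_mul_of_nonneg_right hl1 h10
      linarith
    have h10 : |l| / 2 * (2 * κ * y * (Fw τ η N * (2 / (1 - q) * U))) ≤
        κ * (2 / (1 - q)) * (y * (Fw τ η N * U)) := by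
      have h11 : 0 ≤ κ * (2 / (1 - q)) * (y * (Fw τ η N * U)) :=
        mul_nonneg (mul_nonneg hk.le (div_nonneg two_pos.le hq1.le)) (mul_nonneg hy hFU)
      have h12 := mul_le_mul_of_nonneg_right hl1 h11
      have h13 : |l| / 2 * (2 * κ * y * (Fw τ η N * (2 / (1 - q) * U))) =
        |l| * (κ * (2 / (1 - q)) * (y * (Fw τ η N * U))) := by ring
      rw [h13]
      linarith
    have h11 : |l| * κ * (Fw τ η N * Y ^ 2) ≤ κ * (Fw τ η N * Y ^ 2) := by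
      have h12 := mul_le_mul_of_nonneg_right hl1 (mul_nonneg hk.le hFY)
      linarith
    unfold Ca4 Cb4
    have h12 : (2 * (1 + q⁻¹ ^ 2) + 2 * (τ * δ / 4) * q⁻¹ ^ 2 + 5 * κ * q⁻¹ + κ) *
        (Fw τ η N * Y ^ 2) = 2 * (1 + q⁻¹ ^ 2) * (Fw τ η N * Y ^ 2) +
        2 * (τ * δ / 4) * q⁻¹ ^ 2 * (Fw τ η N * Y ^ 2) + 5 * κ * q⁻¹ * (Fw τ η N * Y ^ 2) +
        κ * (Fw τ η N * Y ^ 2) := by ring
    have h13 : (1 + κ * (2 / (1 - q))) * (y * (Fw τ η N * U)) =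
        y * (Fw τ η N * U) + κ * (2 / (1 - q)) * (y * (Fw τ η N * U)) := by ring
    have h14 : (|l| / 2 * P * C + C * ‖φ 1‖ / 2) * q ^ M = |l| / 2 * (P * C * q ^ M) +
        C * ‖φ 1‖ / 2 * q ^ M := by ring
    rw [h12, h13, h14]
    linarith
  -- the limit
  have hlim : Tendsto (fun M : ℕ => Ca4 q κ δ τ * (Fw τ η N * Y ^ 2) +
        Cb4 q κ * (y * (Fw τ η N * U)) + Bc q θ / (τ * δ / 4) * G ^ 2 +
        (|l| / 2 * P * C + C * ‖φ 1‖ / 2) * q ^ M) atTop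
      (𝓝 (Ca4 q κ δ τ * (Fw τ η N * Y ^ 2) +
        Cb4 q κ * (y * (Fw τ η N * U)) + Bc q θ / (τ * δ / 4) * G ^ 2 +
        (|l| / 2 * P * C + C * ‖φ 1‖ / 2) * 0)) :=
    tendsto_const_nhds.add ((tendsto_pow_atTop_nhds_zero_of_lt_one h.q0.le h.q1).const_mul _)
  rw [mul_zero, add_zero] at hlim
  exact ge_of_tendsto hlim (eventually_atTop.2 ⟨N + 1, fun M hM' => hM M hM'⟩)

end Pool.Agent.Helper34.PG
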