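import Pool.Agent.Helper32.PG.Stm

/-!
# The virial lemma: weights and distances
-/

set_option autoImplicit false

namespace Pool.Agent.Helper34.PG

open Finset

/-- distance of natural numbers -/
def nd (n m : ℕ) : ℕ := (n - m) + (m - n)

theorem nd_comm (n m : ℕ) : nd n m = nd m n := by unfold nd; omega

theorem nd_self (n : ℕ) : nd n n = 0 := by unfold nd; omega

theorem geom_le {r : ℝ} (h0 : 0 < r) (h1 : r < 1) (K : ℕ) :
    ∑ i ∈ range K, r ^ i ≤ 1 / (1 - r) := by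
  rw [geom_sum_eq h1.ne, ← neg_div_neg_eq, neg_sub, neg_sub]
  have := pow_nonneg h0.le K
  exact div_le_div_of_nonneg_right (by linarith) (by linarith)

theorem sum_nd_le {r : ℝ} (h0 : 0 < r) (h1 : r < 1) (n N : ℕ) :
    ∑ m ∈ range N, r ^ nd n m ≤ 2 / (1 - r) := by
  have hg : ∀ K, ∑ i ∈ range K, r ^ i ≤ 1 / (1 - r) := geom_le h0 h1
  have hle : ∑ m ∈ range N, r ^ nd n m ≤ ∑ m ∈ range (n + 1 + N), r ^ nd n m :=
    sum_le_sum_of_subset_of_nonneg (range_subset_range.2 (by omega))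
      fun _ _ _ => pow_nonneg h0.le _
  rw [sum_range_add] at hle
  have h2 : ∑ m ∈ range (n + 1), r ^ nd n m = ∑ i ∈ range (n + 1), r ^ i := by
    rw [← sum_range_reflect]
    refine sum_congr rfl fun m hm => ?_
    have := mem_range.1 hm
    congr 1
    unfold nd
    omega
  have h3 : ∑ m ∈ range N, r ^ nd n (n + 1 + m) ≤ ∑ i ∈ range N, r ^ i := by
    refine sum_le_sum fun m _ => ?_
    refine pow_le_pow_of_le_one h0.le h1.le ?_
    unfold nd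
    omega
  have h4 := hg (n + 1)
  have h5 := hg N
  have h6 : (2 : ℝ) / (1 - r) = 1 / (1 - r) + 1 / (1 - r) := by ring
  rw [h2] at hle
  linarith

theorem sum_nd_le' {r : ℝ} (h0 : 0 < r) (h1 : r < 1) (n N : ℕ) :
    ∑ m ∈ range N, r ^ nd m n ≤ 2 / (1 - r) := by
  refine le_trans (le_of_eq ?_) (sum_nd_le h0 h1 n N)
  exact sum_congr rfl fun m _ => by rw [nd_comm]

theorem sum_nd_fin {r : ℝ} (h0 : 0 < r) (h1 : r < 1) (n : ℕ) (s : Finset ℕ) :
    ∑ m ∈ s, r ^ nd m n ≤ 2 / (1 - r) := by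
  obtain ⟨K, hK⟩ := s.exists_nat_subset_range
  exact (sum_le_sum_of_subset_of_nonneg hK fun _ _ _ => pow_nonneg h0.le _).trans
    (sum_nd_le' h0 h1 n K)

section F

/-- the weight `F` -/
def Fw (τ : ℝ) (η : ℕ → ℝ) (n : ℕ) : ℝ := ∏ i ∈ range n, (1 + τ * η i)

/-- the weight `G` -/
def Gw (τ : ℝ) (η : ℕ → ℝ) (n : ℕ) : ℝ := η n * Fw τ η n

variable {τ θ : ℝ} {η : ℕ → ℝ}

theorem F_zero : Fw τ η 0 = 1 := by simp [Fw]

theorem F_succ (n : ℕ) : Fw τ η (n + 1) = Fw τ η n + τ * Gw τ η n := by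
  unfold Fw Gw Fw
  rw [prod_range_succ]
  ring

theorem F_pos (hτ : 0 < τ) (hη : ∀ n, 0 < η n) (n : ℕ) : 0 < Fw τ η n :=
  prod_pos fun i _ => by have := mul_pos hτ (hη i); linarith

theorem G_pos (hτ : 0 < τ) (hη : ∀ n, 0 < η n) (n : ℕ) : 0 < Gw τ η n :=
  mul_pos (hη n) (F_pos hτ hη n)

theorem F_mono (hτ : 0 < τ) (hη : ∀ n, 0 < η n) : Monotone (Fw τ η) :=
  monotone_nat_of_le_succ fun n => by
    rw [F_succ]
    have := mul_pos hτ (G_pos hτ hη n)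
    linarith

theorem F_succ_le (hτ : 0 < τ) (hη : ∀ n, 0 < η n) (h3 : ∀ n, 1 + τ * η n ≤ θ) (n : ℕ) :
    Fw τ η (n + 1) ≤ θ * Fw τ η n := by
  have h := F_pos hτ hη n
  rw [F_succ]
  unfold Gw
  have := mul_le_mul_of_nonneg_right (h3 n) h.le
  linarith

theorem F_le_pow (hτ : 0 < τ) (hη : ∀ n, 0 < η n) (hθ : 1 < θ) (h3 : ∀ n, 1 + τ * η n ≤ θ)
    (n : ℕ) : Fw τ η n ≤ θ ^ n := by
  induction n with
  | zero => simp [Fw]
  | succ n ih =>
    have := F_succ_le hτ hη h3 n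
    have h2 := mul_le_mul_of_nonneg_left ih (by linarith : (0 : ℝ) ≤ θ)
    rw [pow_succ]
    linarith

theorem G_succ_le (hτ : 0 < τ) (hη : ∀ n, 0 < η n) (h1 : ∀ n, η (n + 1) * (1 + τ * η n) ≤ θ * η n)
    (n : ℕ) : Gw τ η (n + 1) ≤ θ * Gw τ η n := by
  have h := F_pos hτ hη n
  have h2 : Gw τ η (n + 1) = η (n + 1) * (1 + τ * η n) * Fw τ η n := by
    unfold Gw
    rw [F_succ]
    unfold Gw
    ring
  have h4 : θ * Gw τ η n = θ * η n * Fw τ η n := by unfold Gw; ring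
  rw [h2, h4]
  exact mul_le_mul_of_nonneg_right (h1 n) h.le

theorem G_le_succ (hτ : 0 < τ) (hη : ∀ n, 0 < η n) (hθ : 1 < θ) (h2 : ∀ n, η n ≤ θ * η (n + 1))
    (n : ℕ) : Gw τ η n ≤ θ * Gw τ η (n + 1) := by
  have h := F_pos hτ hη n
  have h3 := F_mono hτ hη (Nat.le_succ n)
  unfold Gw
  calc η n * Fw τ η n ≤ (θ * η (n + 1)) * Fw τ η (n + 1) :=
        mul_le_mul (h2 n) h3 h.le (mul_nonneg (by linarith) (hη _).le)
    _ = θ * (η (n + 1) * Fw τ η (n + 1)) := by ring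

theorem G_add_le (hτ : 0 < τ) (hη : ∀ n, 0 < η n) (hθ : 1 < θ)
    (h1 : ∀ n, η (n + 1) * (1 + τ * η n) ≤ θ * η n) (n k : ℕ) :
    Gw τ η (n + k) ≤ θ ^ k * Gw τ η n := by
  induction k with
  | zero => simp
  | succ k ih =>
    have h2 := G_succ_le hτ hη h1 (n + k)
    have h3 := mul_le_mul_of_nonneg_left ih (by linarith : (0 : ℝ) ≤ θ)
    rw [← add_assoc, pow_succ]
    linarith

theorem G_le_add (hτ : 0 < τ) (hη : ∀ n, 0 < η n) (hθ : 1 < θ) (h2 : ∀ n, η n ≤ θ * η (n + 1))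
    (n k : ℕ) : Gw τ η n ≤ θ ^ k * Gw τ η (n + k) := by
  induction k with
  | zero => simp
  | succ k ih =>
    have h3 := G_le_succ hτ hη hθ h2 (n + k)
    have h4 := mul_le_mul_of_nonneg_left h3 (pow_nonneg (by linarith : (0 : ℝ) ≤ θ) k)
    rw [← add_assoc, pow_succ]
    linarith

theorem G_nd (hτ : 0 < τ) (hη : ∀ n, 0 < η n) (hθ : 1 < θ)
    (h1 : ∀ n, η (n + 1) * (1 + τ * η n) ≤ θ * η n) (h2 : ∀ n, η n ≤ θ * η (n + 1)) (n m : ℕ) :
    Gw τ η n ≤ θ ^ nd n m * Gw τ η m := by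
  rcases le_total n m with h | h
  · obtain ⟨k, rfl⟩ := Nat.exists_eq_add_of_le h
    have : nd n (n + k) = k := by unfold nd; omega
    rw [this]
    exact G_le_add hτ hη hθ h2 n k
  · obtain ⟨k, rfl⟩ := Nat.exists_eq_add_of_le h
    have : nd (m + k) m = k := by unfold nd; omega
    rw [this]
    exact G_add_le hτ hη hθ h1 m k

theorem F_diff1 (hτ : 0 < τ) (hη : ∀ n, 0 < η n) (hθ : 1 < θ)
    (h1 : ∀ n, η (n + 1) * (1 + τ * η n) ≤ θ * η n) (n j : ℕ) :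
    (θ - 1) * (Fw τ η (n + j) - Fw τ η n) ≤ τ * (θ ^ j - 1) * Gw τ η n := by
  induction j with
  | zero => simp
  | succ j ih =>
    have h2 := G_add_le hτ hη hθ h1 n j
    rw [← add_assoc, F_succ, pow_succ]
    have h3 := mul_le_mul_of_nonneg_left h2 (mul_nonneg hτ.le (by linarith : 0 ≤ θ - 1))
    nlinarith

theorem F_diff2 (hτ : 0 < τ) (hη : ∀ n, 0 < η n) (hθ : 1 < θ)
    (h2 : ∀ n, η n ≤ θ * η (n + 1)) (a j : ℕ) :
    (θ - 1) * (Fw τ η (a + j) - Fw τ η a) ≤ τ * θ * (θ ^ j - 1) * Gw τ η (a + j) := by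
  induction j with
  | zero => simp
  | succ j ih =>
    have h3 := G_le_succ hτ hη hθ h2 (a + j)
    have h4 := G_pos hτ hη (a + j)
    rw [← add_assoc, F_succ]
    have h5 : (1 : ℝ) ≤ θ ^ j := one_le_pow₀ hθ.le
    have h6 : 0 ≤ τ * (θ * (θ ^ j - 1) + (θ - 1)) :=
      mul_nonneg hτ.le (add_nonneg (mul_nonneg (by linarith) (by linarith)) (by linarith))
    have h7 := mul_le_mul_of_nonneg_left h3 h6
    have h8 : τ * (θ * (θ ^ j - 1) + (θ - 1)) * (θ * Gw τ η (a + j + 1)) =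
        τ * θ * (θ ^ (j + 1) - 1) * Gw τ η (a + j + 1) := by
      rw [pow_succ]
      ring
    rw [h8] at h7
    nlinarith

theorem F_diff (hτ : 0 < τ) (hη : ∀ n, 0 < η n) (hθ : 1 < θ)
    (h1 : ∀ n, η (n + 1) * (1 + τ * η n) ≤ θ * η n) (h2 : ∀ n, η n ≤ θ * η (n + 1)) (n m : ℕ) :
    |Fw τ η (m + 1) - Fw τ η n| ≤ τ * θ / (θ - 1) * θ ^ nd n m * Gw τ η n := by
  have hG := G_pos hτ hη n
  have hθ1 : 0 < θ - 1 := by linarith
  have hre : τ * θ / (θ - 1) * θ ^ nd n m * Gw τ η n =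
    (τ * θ * θ ^ nd n m * Gw τ η n) / (θ - 1) := by ring
  rw [hre, le_div_iff₀ hθ1]
  rcases le_total n (m + 1) with h | h
  · obtain ⟨j, hj⟩ := Nat.exists_eq_add_of_le h
    rw [hj, abs_of_nonneg (sub_nonneg.2 (F_mono hτ hη (Nat.le_add_right n j)))]
    have h3 := F_diff1 hτ hη hθ h1 n j
    have h4 : θ ^ j ≤ θ * θ ^ nd n m := by
      rw [← pow_succ']
      exact pow_le_pow_right₀ hθ.le (by unfold nd; omega)
    have h5 : τ * (θ ^ j - 1) * Gw τ η n ≤ τ * (θ * θ ^ nd n m) * Gw τ η n :=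
      mul_le_mul_of_nonneg_right (mul_le_mul_of_nonneg_left (by linarith) hτ.le) hG.le
    calc _ = (θ - 1) * (Fw τ η (n + j) - Fw τ η n) := by ring
      _ ≤ _ := h3
      _ ≤ _ := h5
      _ = _ := by ring
  · obtain ⟨j, hj⟩ := Nat.exists_eq_add_of_le h
    subst hj
    rw [abs_sub_comm, abs_of_nonneg (sub_nonneg.2 (F_mono hτ hη (Nat.le_add_right (m + 1) j)))]
    have h3 := F_diff2 hτ hη hθ h2 (m + 1) j
    have h4 : θ ^ j ≤ θ ^ nd (m + 1 + j) m :=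
      pow_le_pow_right₀ hθ.le (by unfold nd; omega)
    have h5 : τ * θ * (θ ^ j - 1) * Gw τ η (m + 1 + j) ≤
        τ * θ * θ ^ nd (m + 1 + j) m * Gw τ η (m + 1 + j) :=
      mul_le_mul_of_nonneg_right (mul_le_mul_of_nonneg_left (by linarith)
        (mul_nonneg hτ.le (by linarith))) hG.le
    calc _ = (θ - 1) * (Fw τ η (m + 1 + j) - Fw τ η (m + 1)) := by ring
      _ ≤ _ := h3
      _ ≤ _ := h5

end F

end Pool.Agent.Helper34.PG
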