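import Pool.Agent.Helper34.PG.Vir1

/-!
# The virial lemma: the bilinear form
-/

set_option autoImplicit false

namespace Pool.Agent.Helper34.PG

open Finset

/-- the shifted sequence -/
def psi (φ : ℕ → ℝ) : ℕ → ℝ
  | 0 => 0
  | n + 1 => φ n

/-- the weighted energy -/
def En (τ : ℝ) (η φ : ℕ → ℝ) (N : ℕ) : ℝ :=
  ∑ n ∈ range N, Gw τ η n * (φ n ^ 2 + φ (n + 1) ^ 2)

section Y

variable {q Y : ℝ} {φ : ℕ → ℝ} {N : ℕ}

theorem Y_nonneg (hY : ∀ s : Finset ℕ, ∑ i ∈ s, q ^ nd i N * |φ i| ≤ Y) : 0 ≤ Y := by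
  simpa using hY ∅

theorem Y_N (hY : ∀ s : Finset ℕ, ∑ i ∈ s, q ^ nd i N * |φ i| ≤ Y) : |φ N| ≤ Y := by
  have := hY {N}
  rw [sum_singleton, nd_self] at this
  simpa using this

theorem Y_succ (hq : 0 < q) (hq1 : q < 1) (hY : ∀ s : Finset ℕ, ∑ i ∈ s, q ^ nd i N * |φ i| ≤ Y)
    (K : ℕ) : ∑ n ∈ range K, q ^ nd n N * |φ (n + 1)| ≤ q⁻¹ * Y := by
  rw [← div_eq_inv_mul, le_div_iff₀ hq, sum_mul]
  have h1 := hY (range (K + 1))
  rw [sum_range_succ'] at h1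
  have h2 : 0 ≤ q ^ nd 0 N * |φ 0| := mul_nonneg (pow_nonneg hq.le _) (abs_nonneg _)
  refine le_trans (sum_le_sum fun n _ => ?_) (by linarith :
    ∑ n ∈ range K, q ^ nd (n + 1) N * |φ (n + 1)| ≤ Y)
  rw [mul_right_comm, ← pow_succ]
  exact mul_le_mul_of_nonneg_right (pow_le_pow_of_le_one hq.le hq1.le (by unfold nd; omega))
    (abs_nonneg _)

theorem Y_psi (hq : 0 < q) (hq1 : q < 1) (hY : ∀ s : Finset ℕ, ∑ i ∈ s, q ^ nd i N * |φ i| ≤ Y)
    (K : ℕ) : ∑ n ∈ range K, q ^ nd n N * |psi φ n| ≤ q⁻¹ * Y := by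
  rcases Nat.eq_zero_or_pos K with rfl | hK
  · simp only [range_zero, sum_empty]
    exact mul_nonneg (inv_nonneg.2 hq.le) (Y_nonneg hY)
  · obtain ⟨K, rfl⟩ := Nat.exists_eq_succ_of_ne_zero hK.ne'
    rw [sum_range_succ']
    simp only [psi, abs_zero, mul_zero, add_zero]
    rw [← div_eq_inv_mul, le_div_iff₀ hq, sum_mul]
    refine le_trans (sum_le_sum fun n _ => ?_) (hY (range K))
    rw [mul_right_comm, ← pow_succ]
    exact mul_le_mul_of_nonneg_right (pow_le_pow_of_le_one hq.le hq1.le (by unfold nd; omega))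
      (abs_nonneg _)

theorem Y_N1 (hq : 0 < q) (hq1 : q < 1) (hY : ∀ s : Finset ℕ, ∑ i ∈ s, q ^ nd i N * |φ i| ≤ Y) :
    |φ (N + 1)| ≤ q⁻¹ * Y := by
  have h := Y_succ hq hq1 hY (N + 1)
  rw [sum_range_succ, nd_self, pow_zero, one_mul] at h
  have h2 : 0 ≤ ∑ n ∈ range N, q ^ nd n N * |φ (n + 1)| :=
    sum_nonneg fun _ _ => mul_nonneg (pow_nonneg hq.le _) (abs_nonneg _)
  linarith

theorem Y_psiN (hq : 0 < q) (hq1 : q < 1) (hY : ∀ s : Finset ℕ, ∑ i ∈ s, q ^ nd i N * |φ i| ≤ Y) :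
    |psi φ N| ≤ q⁻¹ * Y := by
  have h := Y_psi hq hq1 hY (N + 1)
  rw [sum_range_succ, nd_self, pow_zero, one_mul] at h
  have h2 : 0 ≤ ∑ n ∈ range N, q ^ nd n N * |psi φ n| :=
    sum_nonneg fun _ _ => mul_nonneg (pow_nonneg hq.le _) (abs_nonneg _)
  linarith

end Y

/-- the hypotheses on the weights -/
structure Wts (q θ κ τ : ℝ) (η : ℕ → ℝ) : Prop where
  q0 : 0 < q
  q1 : q < 1
  th : 1 < θ
  qt : q * θ ^ 2 < 1
  k0 : 0 < κ
  t0 : 0 < τ
  e0 : ∀ n, 0 < η n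
  e3 : ∀ n, η n ≤ 3
  eq' : ∀ n, q ^ n ≤ η n
  e1 : ∀ n, η (n + 1) * (1 + τ * η n) ≤ θ * η n
  e2 : ∀ n, η n ≤ θ * η (n + 1)
  e4 : ∀ n, 1 + τ * η n ≤ θ

/-- the hypotheses on the kernel -/
structure Ker (q κ : ℝ) (η : ℕ → ℝ) (T : ℕ → ℕ → ℝ) : Prop where
  symm : ∀ n m, T n m = T m n
  b1 : ∀ n k, |T n (n + k)| ≤ κ * q ^ k
  b2 : ∀ n k, |T n (n + k) - T (n + 1) (n + 1 + k)| ≤ κ * η n * q ^ k
  b3 : ∀ n k, |T n (n + k) - T (n + 1) (n + 1 + k)| ≤ κ * η (n + k) * q ^ k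

section kernel

variable {q θ κ τ : ℝ} {η : ℕ → ℝ} {T : ℕ → ℕ → ℝ}

theorem Ker.le (hT : Ker q κ η T) (n m : ℕ) : |T n m| ≤ κ * q ^ nd n m := by
  rcases le_total n m with h | h
  · obtain ⟨k, rfl⟩ := Nat.exists_eq_add_of_le h
    have : nd n (n + k) = k := by unfold nd; omega
    rw [this]
    exact hT.b1 n k
  · obtain ⟨k, rfl⟩ := Nat.exists_eq_add_of_le h
    have : nd (m + k) m = k := by unfold nd; omega
    rw [this, hT.symm]
    exact hT.b1 m k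

theorem Ker.diff (hT : Ker q κ η T) (n m : ℕ) :
    |T n m - T (n + 1) (m + 1)| ≤ κ * η n * q ^ nd n m := by
  rcases le_total n m with h | h
  · obtain ⟨k, rfl⟩ := Nat.exists_eq_add_of_le h
    have : nd n (n + k) = k := by unfold nd; omega
    rw [this, show n + k + 1 = n + 1 + k by ring]
    exact hT.b2 n k
  · obtain ⟨k, rfl⟩ := Nat.exists_eq_add_of_le h
    have : nd (m + k) m = k := by unfold nd; omega
    rw [this, hT.symm, hT.symm (m + k + 1), show m + k + 1 = m + 1 + k by ring]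
    exact hT.b3 m k

/-- the constant of the kernel -/
noncomputable def Ac (θ κ τ : ℝ) : ℝ := κ * (1 + τ * θ / (θ - 1))

theorem Ac_pos (h : Wts q θ κ τ η) : 0 < Ac θ κ τ := by
  have h1 : 0 < θ - 1 := by have := h.th; linarith
  have h2 : 0 < θ := by have := h.th; linarith
  have := div_pos (mul_pos h.t0 h2) h1
  exact mul_pos h.k0 (by linarith)

theorem D_le (h : Wts q θ κ τ η) (hT : Ker q κ η T) (n m : ℕ) :
    |Fw τ η n * T n m - Fw τ η (m + 1) * T (n + 1) (m + 1)| ≤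
      Ac θ κ τ * Gw τ η n * (q * θ) ^ nd n m := by
  have hF := F_pos h.t0 h.e0 n
  have hG := G_pos h.t0 h.e0 n
  have hθ : 0 < θ := by have := h.th; linarith
  have hθ1 : 0 < θ - 1 := by have := h.th; linarith
  have e : Fw τ η n * T n m - Fw τ η (m + 1) * T (n + 1) (m + 1) =
      Fw τ η n * (T n m - T (n + 1) (m + 1)) -
        (Fw τ η (m + 1) - Fw τ η n) * T (n + 1) (m + 1) := by ring
  have h1 : |Fw τ η n * (T n m - T (n + 1) (m + 1))| ≤ κ * Gw τ η n * q ^ nd n m := by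
    rw [abs_mul, abs_of_pos hF]
    have := mul_le_mul_of_nonneg_left (hT.diff n m) hF.le
    refine this.trans (le_of_eq ?_)
    unfold Gw
    ring
  have h2 : |(Fw τ η (m + 1) - Fw τ η n) * T (n + 1) (m + 1)| ≤
      (τ * θ / (θ - 1) * θ ^ nd n m * Gw τ η n) * (κ * q ^ nd n m) := by
    rw [abs_mul]
    refine mul_le_mul (F_diff h.t0 h.e0 h.th h.e1 h.e2 n m) ?_ (abs_nonneg _) ?_
    · have := hT.le (n + 1) (m + 1)
      have e2 : nd (n + 1) (m + 1) = nd n m := by unfold nd; omega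
      rwa [e2] at this
    · exact mul_nonneg (mul_nonneg (div_nonneg (mul_nonneg h.t0.le hθ.le) hθ1.le)
        (pow_nonneg hθ.le _)) hG.le
  have h3 : q ^ nd n m ≤ (q * θ) ^ nd n m :=
    pow_le_pow_left₀ h.q0.le (by have := mul_lt_mul_of_pos_left h.th h.q0; linarith) _
  rw [e]
  refine (abs_sub _ _).trans ?_
  calc _ ≤ κ * Gw τ η n * q ^ nd n m +
        (τ * θ / (θ - 1) * θ ^ nd n m * Gw τ η n) * (κ * q ^ nd n m) := add_le_add h1 h2
    _ ≤ κ * Gw τ η n * (q * θ) ^ nd n m +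
        (τ * θ / (θ - 1) * θ ^ nd n m * Gw τ η n) * (κ * q ^ nd n m) :=
        add_le_add (mul_le_mul_of_nonneg_left h3 (mul_nonneg h.k0.le hG.le)) le_rfl
    _ = Ac θ κ τ * Gw τ η n * (q * θ) ^ nd n m := by
        rw [mul_pow]
        unfold Ac
        ring

/-- the constant `2 / (1 - q θ²)` -/
noncomputable def Bc (q θ : ℝ) : ℝ := 2 / (1 - q * θ ^ 2)

theorem Bc_pos (h : Wts q θ κ τ η) : 0 < Bc q θ := by
  have := h.qt
  exact div_pos two_pos (by linarith)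

theorem qt_pos (h : Wts q θ κ τ η) : 0 < q * θ :=
  mul_pos h.q0 (by have := h.th; linarith)

theorem qt_le (h : Wts q θ κ τ η) : q * θ ≤ q * θ ^ 2 := by
  have h1 : θ ≤ θ ^ 2 := by have := h.th; nlinarith
  exact mul_le_mul_of_nonneg_left h1 h.q0.le

theorem sum_x (h : Wts q θ κ τ η) (n N : ℕ) :
    ∑ m ∈ range N, (q * θ) ^ nd n m ≤ Bc q θ := by
  have h1 := h.qt
  have h2 := qt_le h
  refine (sum_nd_le (qt_pos h) (by linarith) n N).trans ?_
  exact div_le_div_of_nonneg_left two_pos.le (by linarith) (by linarith)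

theorem sum_y (h : Wts q θ κ τ η) (m N : ℕ) :
    ∑ n ∈ range N, (q * θ ^ 2) ^ nd n m ≤ Bc q θ :=
  sum_nd_le' (mul_pos h.q0 (pow_pos (by have := h.th; linarith) 2)) h.qt m N

theorem double_le (h : Wts q θ κ τ η) (hT : Ker q κ η T) (φ : ℕ → ℝ) (N : ℕ) :
    |∑ n ∈ range N, ∑ m ∈ range N,
      (Fw τ η n * T n m - Fw τ η (m + 1) * T (n + 1) (m + 1)) * (φ m * φ (n + 1))| ≤
      Ac θ κ τ * Bc q θ / 2 * En τ η φ N := by
  have hA := Ac_pos h
  have hB := Bc_pos h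
  have hG := G_pos h.t0 h.e0
  have hθ : 0 < θ := by have := h.th; linarith
  have hx := qt_pos h
  have hterm : ∀ n m, |(Fw τ η n * T n m - Fw τ η (m + 1) * T (n + 1) (m + 1)) *
      (φ m * φ (n + 1))| ≤
      Ac θ κ τ / 2 * (Gw τ η n * φ (n + 1) ^ 2 * (q * θ) ^ nd n m) +
        Ac θ κ τ / 2 * (Gw τ η m * φ m ^ 2 * (q * θ ^ 2) ^ nd n m) := by
    intro n m
    rw [abs_mul]
    have h1 := D_le h hT n m
    have h2 : |φ m * φ (n + 1)| ≤ (φ m ^ 2 + φ (n + 1) ^ 2) / 2 := by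
      rw [abs_le]
      constructor <;> nlinarith [sq_nonneg (φ m + φ (n + 1)), sq_nonneg (φ m - φ (n + 1))]
    have h3 : Gw τ η n * (q * θ) ^ nd n m ≤ Gw τ η m * (q * θ ^ 2) ^ nd n m := by
      have h4 := G_nd h.t0 h.e0 h.th h.e1 h.e2 n m
      have h5 := mul_le_mul_of_nonneg_right h4 (pow_nonneg hx.le (nd n m))
      refine h5.trans (le_of_eq ?_)
      rw [show q * θ ^ 2 = θ * (q * θ) by ring, mul_pow θ]
      ring
    calc _ ≤ (Ac θ κ τ * Gw τ η n * (q * θ) ^ nd n m) * ((φ m ^ 2 + φ (n + 1) ^ 2) / 2) :=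
          mul_le_mul h1 h2 (abs_nonneg _)
            (mul_nonneg (mul_nonneg hA.le (hG n).le) (pow_nonneg hx.le _))
      _ = Ac θ κ τ / 2 * (Gw τ η n * φ (n + 1) ^ 2 * (q * θ) ^ nd n m) +
          Ac θ κ τ / 2 * φ m ^ 2 * (Gw τ η n * (q * θ) ^ nd n m) := by ring
      _ ≤ Ac θ κ τ / 2 * (Gw τ η n * φ (n + 1) ^ 2 * (q * θ) ^ nd n m) +
          Ac θ κ τ / 2 * φ m ^ 2 * (Gw τ η m * (q * θ ^ 2) ^ nd n m) :=
          add_le_add le_rfl (mul_le_mul_of_nonneg_left h3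
            (mul_nonneg (by linarith) (sq_nonneg _)))
      _ = _ := by ring
  have hs : |∑ n ∈ range N, ∑ m ∈ range N,
      (Fw τ η n * T n m - Fw τ η (m + 1) * T (n + 1) (m + 1)) * (φ m * φ (n + 1))| ≤
      ∑ n ∈ range N, ∑ m ∈ range N,
        (Ac θ κ τ / 2 * (Gw τ η n * φ (n + 1) ^ 2 * (q * θ) ^ nd n m) +
        Ac θ κ τ / 2 * (Gw τ η m * φ m ^ 2 * (q * θ ^ 2) ^ nd n m)) :=
    (abs_sum_le_sum_abs _ _).trans (sum_le_sum fun n _ =>
      (abs_sum_le_sum_abs _ _).trans (sum_le_sum fun m _ => hterm n m))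
  refine hs.trans ?_
  simp only [sum_add_distrib]
  have hp1 : ∑ n ∈ range N, ∑ m ∈ range N,
      Ac θ κ τ / 2 * (Gw τ η n * φ (n + 1) ^ 2 * (q * θ) ^ nd n m) ≤
      Ac θ κ τ * Bc q θ / 2 * ∑ n ∈ range N, Gw τ η n * φ (n + 1) ^ 2 := by
    rw [mul_sum]
    refine sum_le_sum fun n _ => ?_
    rw [← mul_sum, ← mul_sum]
    have := mul_le_mul_of_nonneg_left (sum_x h n N)
      (mul_nonneg (mul_nonneg (by linarith : (0 : ℝ) ≤ Ac θ κ τ / 2) (hG n).le)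
        (sq_nonneg (φ (n + 1))))
    calc _ = Ac θ κ τ / 2 * Gw τ η n * φ (n + 1) ^ 2 * ∑ m ∈ range N, (q * θ) ^ nd n m := by ring
      _ ≤ _ := this
      _ = _ := by ring
  have hp2 : ∑ n ∈ range N, ∑ m ∈ range N,
      Ac θ κ τ / 2 * (Gw τ η m * φ m ^ 2 * (q * θ ^ 2) ^ nd n m) ≤
      Ac θ κ τ * Bc q θ / 2 * ∑ n ∈ range N, Gw τ η n * φ n ^ 2 := by
    rw [sum_comm, mul_sum]
    refine sum_le_sum fun m _ => ?_
    rw [← mul_sum, ← mul_sum]
    have := mul_le_mul_of_nonneg_left (sum_y h m N)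
      (mul_nonneg (mul_nonneg (by linarith : (0 : ℝ) ≤ Ac θ κ τ / 2) (hG m).le)
        (sq_nonneg (φ m)))
    calc _ = Ac θ κ τ / 2 * Gw τ η m * φ m ^ 2 * ∑ n ∈ range N, (q * θ ^ 2) ^ nd n m := by ring
      _ ≤ _ := this
      _ = _ := by ring
  have he : En τ η φ N = ∑ n ∈ range N, Gw τ η n * φ n ^ 2 +
      ∑ n ∈ range N, Gw τ η n * φ (n + 1) ^ 2 := by
    unfold En
    rw [← sum_add_distrib]
    exact sum_congr rfl fun n _ => by ring
  rw [he, mul_add]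
  linarith

/-- The shift identity. -/
theorem shift_id (hs : ∀ n m, T n m = T m n) (F φ : ℕ → ℝ) (N : ℕ) :
    ∑ n ∈ range (N + 1), ∑ m ∈ range (N + 1), F n * T n m * φ m * (φ (n + 1) - psi φ n) =
      ∑ n ∈ range N, ∑ m ∈ range N,
        (F n * T n m - F (m + 1) * T (n + 1) (m + 1)) * (φ m * φ (n + 1)) +
      ∑ m ∈ range (N + 1), F N * T N m * φ m * φ (N + 1) +
      ∑ n ∈ range N, F n * T n N * φ N * φ (n + 1) -
      ∑ n ∈ range N, F (n + 1) * T (n + 1) 0 * φ 0 * φ n := by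
  have h1 : ∑ n ∈ range (N + 1), ∑ m ∈ range (N + 1), F n * T n m * φ m * (φ (n + 1) - psi φ n) =
      ∑ n ∈ range (N + 1), ∑ m ∈ range (N + 1), F n * T n m * φ m * φ (n + 1) -
      ∑ n ∈ range (N + 1), ∑ m ∈ range (N + 1), F n * T n m * φ m * psi φ n := by
    rw [← sum_sub_distrib]
    refine sum_congr rfl fun n _ => ?_
    rw [← sum_sub_distrib]
    exact sum_congr rfl fun m _ => by ring
  have h2 : ∑ n ∈ range (N + 1), ∑ m ∈ range (N + 1), F n * T n m * φ m * φ (n + 1) =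
      ∑ n ∈ range N, ∑ m ∈ range N, F n * T n m * φ m * φ (n + 1) +
      ∑ n ∈ range N, F n * T n N * φ N * φ (n + 1) +
      ∑ m ∈ range (N + 1), F N * T N m * φ m * φ (N + 1) := by
    rw [sum_range_succ, ← sum_add_distrib]
    congr 1
    exact sum_congr rfl fun n _ => sum_range_succ _ _
  have h3 : ∑ n ∈ range (N + 1), ∑ m ∈ range (N + 1), F n * T n m * φ m * psi φ n =
      ∑ n ∈ range N, ∑ m ∈ range N, F (m + 1) * T (n + 1) (m + 1) * φ m * φ (n + 1) +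
      ∑ n ∈ range N, F (n + 1) * T (n + 1) 0 * φ 0 * φ n := by
    rw [sum_range_succ']
    have h4 : ∑ m ∈ range (N + 1), F 0 * T 0 m * φ m * psi φ 0 = 0 :=
      sum_eq_zero fun m _ => by simp [psi]
    rw [h4, add_zero]
    have h5 : ∀ n, ∑ m ∈ range (N + 1), F (n + 1) * T (n + 1) m * φ m * psi φ (n + 1) =
        ∑ m ∈ range N, F (n + 1) * T (n + 1) (m + 1) * φ (m + 1) * φ n +
          F (n + 1) * T (n + 1) 0 * φ 0 * φ n := fun n => sum_range_succ' _ _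
    rw [sum_congr rfl fun n _ => h5 n, sum_add_distrib, sum_comm]
    congr 1
    refine sum_congr rfl fun n _ => sum_congr rfl fun m _ => ?_
    rw [hs (m + 1) (n + 1)]
    ring
  rw [h1, h2, h3]
  have h6 : ∑ n ∈ range N, ∑ m ∈ range N,
        (F n * T n m - F (m + 1) * T (n + 1) (m + 1)) * (φ m * φ (n + 1)) =
      ∑ n ∈ range N, ∑ m ∈ range N, F n * T n m * φ m * φ (n + 1) -
      ∑ n ∈ range N, ∑ m ∈ range N, F (m + 1) * T (n + 1) (m + 1) * φ m * φ (n + 1) := by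
    rw [← sum_sub_distrib]
    refine sum_congr rfl fun n _ => ?_
    rw [← sum_sub_distrib]
    exact sum_congr rfl fun m _ => by ring
  rw [h6]
  ring

end kernel

end Pool.Agent.Helper34.PG
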