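import Pool.Agent.Helper34.PG.Vir2

/-!
# The virial lemma: boundary terms and the energy inequality
-/

set_option autoImplicit false

namespace Pool.Agent.Helper34.PG

open Finset

variable {q θ κ τ Y : ℝ} {η : ℕ → ℝ} {T : ℕ → ℕ → ℝ} {φ : ℕ → ℝ} {N : ℕ}

theorem En_nonneg (h : Wts q θ κ τ η) (φ : ℕ → ℝ) (N : ℕ) : 0 ≤ En τ η φ N :=
  sum_nonneg fun n _ => mul_nonneg (G_pos h.t0 h.e0 n).le (by positivity)

theorem En_mono (h : Wts q θ κ τ η) (φ : ℕ → ℝ) : Monotone (En τ η φ) :=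
  monotone_nat_of_le_succ fun n => by
    unfold En
    rw [sum_range_succ]
    have := mul_nonneg (G_pos h.t0 h.e0 n).le (by positivity : 0 ≤ φ n ^ 2 + φ (n + 1) ^ 2)
    linarith

theorem sumG_le (h : Wts q θ κ τ η) (φ : ℕ → ℝ) (N : ℕ) :
    ∑ n ∈ range N, Gw τ η n * φ n ^ 2 ≤ En τ η φ N :=
  sum_le_sum fun n _ => mul_le_mul_of_nonneg_left (by have := sq_nonneg (φ (n + 1)); linarith)
    (G_pos h.t0 h.e0 n).le

theorem phi0_le (h : Wts q θ κ τ η) (φ : ℕ → ℝ) (N : ℕ) (hN : 1 ≤ N) :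
    φ 0 ^ 2 ≤ En τ η φ N := by
  refine le_trans ?_ (En_mono h φ hN)
  unfold En
  rw [sum_range_one]
  have h1 : (1 : ℝ) ≤ Gw τ η 0 := by
    unfold Gw
    rw [F_zero, mul_one]
    simpa using h.eq' 0
  have h2 := sq_nonneg (φ 0)
  have h3 := sq_nonneg (φ 1)
  have h4 := mul_le_mul_of_nonneg_right h1 (add_nonneg h2 h3)
  simp only [zero_add]
  linarith

theorem b1_le (h : Wts q θ κ τ η) (hT : Ker q κ η T)
    (hY : ∀ s : Finset ℕ, ∑ i ∈ s, q ^ nd i N * |φ i| ≤ Y) :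
    |∑ m ∈ range (N + 1), Fw τ η N * T N m * φ m * φ (N + 1)| ≤
      κ * q⁻¹ * (Fw τ η N * Y ^ 2) := by
  have hF := F_pos h.t0 h.e0 N
  have hY0 := Y_nonneg hY
  have h1 : ∀ m, |Fw τ η N * T N m * φ m * φ (N + 1)| ≤
      Fw τ η N * κ * |φ (N + 1)| * (q ^ nd m N * |φ m|) := by
    intro m
    rw [abs_mul, abs_mul, abs_mul, abs_of_pos hF]
    have h2 := hT.le N m
    rw [nd_comm] at h2
    have h3 := mul_le_mul_of_nonneg_left h2 (mul_nonneg hF.le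
      (mul_nonneg (abs_nonneg (φ m)) (abs_nonneg (φ (N + 1)))))
    linarith
  refine (abs_sum_le_sum_abs _ _).trans ((sum_le_sum fun m _ => h1 m).trans ?_)
  rw [← mul_sum]
  have h4 := mul_le_mul_of_nonneg_left (hY (range (N + 1)))
    (mul_nonneg (mul_nonneg hF.le h.k0.le) (abs_nonneg (φ (N + 1))))
  have h5 := mul_le_mul_of_nonneg_left (Y_N1 h.q0 h.q1 hY)
    (mul_nonneg (mul_nonneg hF.le h.k0.le) hY0)
  calc _ ≤ _ := h4
    _ = Fw τ η N * κ * Y * |φ (N + 1)| := by ring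
    _ ≤ _ := h5
    _ = _ := by ring

theorem b2_le (h : Wts q θ κ τ η) (hT : Ker q κ η T)
    (hY : ∀ s : Finset ℕ, ∑ i ∈ s, q ^ nd i N * |φ i| ≤ Y) :
    |∑ n ∈ range N, Fw τ η n * T n N * φ N * φ (n + 1)| ≤
      κ * q⁻¹ * (Fw τ η N * Y ^ 2) := by
  have hF := F_pos h.t0 h.e0
  have hY0 := Y_nonneg hY
  have h1 : ∀ n ∈ range N, |Fw τ η n * T n N * φ N * φ (n + 1)| ≤
      Fw τ η N * κ * |φ N| * (q ^ nd n N * |φ (n + 1)|) := by
    intro n hn
    rw [abs_mul, abs_mul, abs_mul, abs_of_pos (hF n)]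
    have h2 := hT.le n N
    have h3 := F_mono h.t0 h.e0 (mem_range.1 hn).le
    have h4 : Fw τ η n * |T n N| ≤ Fw τ η N * (κ * q ^ nd n N) :=
      mul_le_mul h3 h2 (abs_nonneg _) (hF N).le
    have h5 := mul_le_mul_of_nonneg_right h4
      (mul_nonneg (abs_nonneg (φ N)) (abs_nonneg (φ (n + 1))))
    linarith
  refine (abs_sum_le_sum_abs _ _).trans ((sum_le_sum h1).trans ?_)
  rw [← mul_sum]
  have h4 := mul_le_mul_of_nonneg_left (Y_succ h.q0 h.q1 hY N)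
    (mul_nonneg (mul_nonneg (hF N).le h.k0.le) (abs_nonneg (φ N)))
  have h5 := mul_le_mul_of_nonneg_left (Y_N hY)
    (mul_nonneg (mul_nonneg (hF N).le h.k0.le) (mul_nonneg (inv_nonneg.2 h.q0.le) hY0))
  calc _ ≤ _ := h4
    _ = Fw τ η N * κ * (q⁻¹ * Y) * |φ N| := by ring
    _ ≤ _ := h5
    _ = _ := by ring

theorem b3_le (h : Wts q θ κ τ η) (hT : Ker q κ η T) (φ : ℕ → ℝ) (N : ℕ) :
    |∑ n ∈ range N, Fw τ η (n + 1) * T (n + 1) 0 * φ 0 * φ n| ≤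
      κ / 2 * (1 + Bc q θ) * En τ η φ N := by
  have hF := F_pos h.t0 h.e0
  have hk := h.k0
  have hB := Bc_pos h
  have hθ : 0 < θ := by have := h.th; linarith
  have hqt := qt_pos h
  have hqt1 : q * θ < 1 := by have := qt_le h; have := h.qt; linarith
  have h0 : ∀ n, |T (n + 1) 0| ≤ κ * q ^ (n + 1) := by
    intro n
    have := hT.le (n + 1) 0
    have e : nd (n + 1) 0 = n + 1 := by unfold nd; omega
    rwa [e] at this
  have h1 : ∀ n, |Fw τ η (n + 1) * T (n + 1) 0 * φ 0 * φ n| ≤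
      κ / 2 * (Gw τ η n * φ n ^ 2) + κ / 2 * φ 0 ^ 2 * (q * θ) ^ (n + 1) := by
    intro n
    rw [abs_mul, abs_mul, abs_mul, abs_of_pos (hF (n + 1))]
    have h2 : |φ 0| * |φ n| ≤ (φ 0 ^ 2 + φ n ^ 2) / 2 := by
      nlinarith [sq_nonneg (|φ 0| - |φ n|), sq_abs (φ 0), sq_abs (φ n)]
    have h3 : Fw τ η (n + 1) * q ^ (n + 1) ≤ Gw τ η n := by
      have h4 := F_succ_le h.t0 h.e0 h.e4 n
      have h5 : q ^ (n + 1) ≤ q * η n := by
        rw [pow_succ']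
        exact mul_le_mul_of_nonneg_left (h.eq' n) h.q0.le
      calc _ ≤ (θ * Fw τ η n) * (q * η n) :=
            mul_le_mul h4 h5 (pow_nonneg h.q0.le _) (mul_nonneg hθ.le (hF n).le)
        _ = (q * θ) * Gw τ η n := by unfold Gw; ring
        _ ≤ 1 * Gw τ η n := mul_le_mul_of_nonneg_right hqt1.le (G_pos h.t0 h.e0 n).le
        _ = _ := one_mul _
    have h4 : Fw τ η (n + 1) * q ^ (n + 1) ≤ (q * θ) ^ (n + 1) := by
      rw [mul_pow, mul_comm]
      exact mul_le_mul_of_nonneg_left (F_le_pow h.t0 h.e0 h.th h.e4 (n + 1))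
        (pow_nonneg h.q0.le _)
    have h5 : Fw τ η (n + 1) * |T (n + 1) 0| ≤ κ * (Fw τ η (n + 1) * q ^ (n + 1)) := by
      have := mul_le_mul_of_nonneg_left (h0 n) (hF (n + 1)).le
      linarith
    have h6 : 0 ≤ κ * (Fw τ η (n + 1) * q ^ (n + 1)) :=
      mul_nonneg hk.le (mul_nonneg (hF (n + 1)).le (pow_nonneg h.q0.le _))
    calc Fw τ η (n + 1) * |T (n + 1) 0| * |φ 0| * |φ n| =
          (Fw τ η (n + 1) * |T (n + 1) 0|) * (|φ 0| * |φ n|) := by ring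
      _ ≤ (κ * (Fw τ η (n + 1) * q ^ (n + 1))) * ((φ 0 ^ 2 + φ n ^ 2) / 2) :=
          mul_le_mul h5 h2 (mul_nonneg (abs_nonneg _) (abs_nonneg _)) h6
      _ = κ / 2 * φ n ^ 2 * (Fw τ η (n + 1) * q ^ (n + 1)) +
          κ / 2 * φ 0 ^ 2 * (Fw τ η (n + 1) * q ^ (n + 1)) := by ring
      _ ≤ κ / 2 * φ n ^ 2 * Gw τ η n + κ / 2 * φ 0 ^ 2 * (q * θ) ^ (n + 1) :=
          add_le_add (mul_le_mul_of_nonneg_left h3 (by positivity))
            (mul_le_mul_of_nonneg_left h4 (by positivity))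
      _ = _ := by ring
  refine (abs_sum_le_sum_abs _ _).trans ((sum_le_sum fun n _ => h1 n).trans ?_)
  rw [sum_add_distrib, ← mul_sum, ← mul_sum]
  have h2 := sumG_le h φ N
  have hE := En_nonneg h φ N
  rcases Nat.eq_zero_or_pos N with rfl | hN
  · simp [En]
  · have h3 := phi0_le h φ N hN
    have h4 : ∑ n ∈ range N, (q * θ) ^ (n + 1) ≤ Bc q θ := by
      have h5 := sum_x h 0 (N + 1)
      rw [sum_range_succ'] at h5
      have h6 : ∀ n, nd 0 n = n := fun n => by unfold nd; omega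
      simp only [h6, pow_zero] at h5
      linarith
    have h5 : φ 0 ^ 2 * ∑ n ∈ range N, (q * θ) ^ (n + 1) ≤ En τ η φ N * Bc q θ :=
      mul_le_mul h3 h4 (sum_nonneg fun _ _ => pow_nonneg hqt.le _) hE
    have h6 := mul_le_mul_of_nonneg_left h2 (by linarith : (0 : ℝ) ≤ κ / 2)
    have h7 := mul_le_mul_of_nonneg_left h5 (by linarith : (0 : ℝ) ≤ κ / 2)
    calc _ ≤ κ / 2 * En τ η φ N + κ / 2 * (En τ η φ N * Bc q θ) := by linarith
      _ = _ := by ring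

theorem tail_le (h : Wts q θ κ τ η)
    (hY : ∀ s : Finset ℕ, ∑ i ∈ s, q ^ nd i N * |φ i| ≤ Y) {t : ℕ → ℝ}
    (ht : ∀ n ∈ range (N + 1), |t n| ≤ κ * q ^ nd n N * Y) :
    |∑ n ∈ range (N + 1), Fw τ η n * t n * (φ (n + 1) - psi φ n)| ≤
      2 * κ * q⁻¹ * (Fw τ η N * Y ^ 2) := by
  have hF := F_pos h.t0 h.e0
  have hY0 := Y_nonneg hY
  have h1 : ∀ n ∈ range (N + 1), |Fw τ η n * t n * (φ (n + 1) - psi φ n)| ≤
      Fw τ η N * κ * Y * (q ^ nd n N * |φ (n + 1)| + q ^ nd n N * |psi φ n|) := by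
    intro n hn
    rw [abs_mul, abs_mul, abs_of_pos (hF n)]
    have h3 := F_mono h.t0 h.e0 (Nat.lt_succ_iff.1 (mem_range.1 hn))
    have h4 : Fw τ η n * |t n| ≤ Fw τ η N * (κ * q ^ nd n N * Y) :=
      mul_le_mul h3 (ht n hn) (abs_nonneg _) (hF N).le
    have h5 : |φ (n + 1) - psi φ n| ≤ |φ (n + 1)| + |psi φ n| := abs_sub _ _
    have h6 : 0 ≤ Fw τ η N * (κ * q ^ nd n N * Y) :=
      mul_nonneg (hF N).le (mul_nonneg (mul_nonneg h.k0.le (pow_nonneg h.q0.le _)) hY0)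
    calc _ ≤ (Fw τ η N * (κ * q ^ nd n N * Y)) * (|φ (n + 1)| + |psi φ n|) :=
          mul_le_mul h4 h5 (abs_nonneg _) h6
      _ = _ := by ring
  refine (abs_sum_le_sum_abs _ _).trans ((sum_le_sum h1).trans ?_)
  rw [← mul_sum, sum_add_distrib]
  have h2 := Y_succ h.q0 h.q1 hY (N + 1)
  have h3 := Y_psi h.q0 h.q1 hY (N + 1)
  have h4 := mul_le_mul_of_nonneg_left (add_le_add h2 h3)
    (mul_nonneg (mul_nonneg (hF N).le h.k0.le) hY0)
  calc _ ≤ _ := h4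
    _ = _ := by ring

/-- the self energy part -/
theorem K_le (h : Wts q θ κ τ η) (hT : Ker q κ η T)
    (hY : ∀ s : Finset ℕ, ∑ i ∈ s, q ^ nd i N * |φ i| ≤ Y) {t : ℕ → ℝ}
    (ht : ∀ n ∈ range (N + 1), |t n| ≤ κ * q ^ nd n N * Y) :
    |∑ n ∈ range (N + 1), Fw τ η n * (∑ m ∈ range (N + 1), T n m * φ m + t n) *
      (φ (n + 1) - psi φ n)| ≤
      (Ac θ κ τ * Bc q θ / 2 + κ / 2 * (1 + Bc q θ)) * En τ η φ N +
        4 * κ * q⁻¹ * (Fw τ η N * Y ^ 2) := by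
  have e : ∑ n ∈ range (N + 1), Fw τ η n * (∑ m ∈ range (N + 1), T n m * φ m + t n) *
      (φ (n + 1) - psi φ n) =
      ∑ n ∈ range (N + 1), ∑ m ∈ range (N + 1), Fw τ η n * T n m * φ m *
        (φ (n + 1) - psi φ n) +
      ∑ n ∈ range (N + 1), Fw τ η n * t n * (φ (n + 1) - psi φ n) := by
    rw [← sum_add_distrib]
    refine sum_congr rfl fun n _ => ?_
    rw [mul_add, add_mul, mul_sum, sum_mul]
    congr 1
    exact sum_congr rfl fun m _ => by ring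
  rw [e, shift_id hT.symm]
  have h1 := double_le h hT φ N
  have h2 := b1_le h hT hY
  have h3 := b2_le h hT hY
  have h4 := b3_le h hT φ N
  have h5 := tail_le h hY ht
  rw [abs_le] at *
  constructor <;> linarith [h1.1, h1.2, h2.1, h2.2, h3.1, h3.2, h4.1, h4.2, h5.1, h5.2]

theorem V_le (h : Wts q θ κ τ η) {v : ℕ → ℝ} (hv : ∀ n, |v n| ≤ κ * η n)
    (hY : ∀ s : Finset ℕ, ∑ i ∈ s, q ^ nd i N * |φ i| ≤ Y) :
    |∑ n ∈ range (N + 1), Fw τ η n * (v n * φ n) * (φ (n + 1) - psi φ n)| ≤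
      κ * (1 + θ / 2) * En τ η φ N + 6 * κ * q⁻¹ * (Fw τ η N * Y ^ 2) := by
  have hF := F_pos h.t0 h.e0
  have hG := G_pos h.t0 h.e0
  have hk := h.k0
  have hY0 := Y_nonneg hY
  have hθ : 0 < θ := by have := h.th; linarith
  have h1 : ∀ n, |Fw τ η n * (v n * φ n) * (φ (n + 1) - psi φ n)| ≤
      κ * (Gw τ η n * (|φ n| * (|φ (n + 1)| + |psi φ n|))) := by
    intro n
    rw [abs_mul, abs_mul, abs_mul, abs_of_pos (hF n)]
    have h5 : |φ (n + 1) - psi φ n| ≤ |φ (n + 1)| + |psi φ n| := abs_sub _ _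
    have h6 : Fw τ η n * (|v n| * |φ n|) ≤ Fw τ η n * (κ * η n * |φ n|) :=
      mul_le_mul_of_nonneg_left (mul_le_mul_of_nonneg_right (hv n) (abs_nonneg _)) (hF n).le
    calc _ ≤ (Fw τ η n * (κ * η n * |φ n|)) * (|φ (n + 1)| + |psi φ n|) :=
          mul_le_mul h6 h5 (abs_nonneg _) (mul_nonneg (hF n).le
            (mul_nonneg (mul_nonneg hk.le (h.e0 n).le) (abs_nonneg _)))
      _ = _ := by unfold Gw; ring
  have h2 : ∀ n, κ * (Gw τ η n * (|φ n| * (|φ (n + 1)| + |psi φ n|))) ≤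
      κ * (Gw τ η n * (φ n ^ 2 + φ (n + 1) ^ 2)) + κ / 2 * (Gw τ η n * psi φ n ^ 2) := by
    intro n
    have h3 : |φ n| * (|φ (n + 1)| + |psi φ n|) ≤ φ n ^ 2 + φ (n + 1) ^ 2 + psi φ n ^ 2 / 2 := by
      nlinarith [sq_nonneg (|φ n| - |φ (n + 1)|), sq_nonneg (|φ n| - |psi φ n|), sq_abs (φ n),
        sq_abs (φ (n + 1)), sq_abs (psi φ n), sq_nonneg (φ (n + 1))]
    have h4 := mul_le_mul_of_nonneg_left h3 (mul_nonneg hk.le (hG n).le)
    calc _ = κ * Gw τ η n * (|φ n| * (|φ (n + 1)| + |psi φ n|)) := by ring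
      _ ≤ _ := h4
      _ = _ := by ring
  rw [sum_range_succ]
  refine (abs_add_le _ _).trans (add_le_add ?_ ?_)
  · refine (abs_sum_le_sum_abs _ _).trans ((sum_le_sum fun n _ => (h1 n).trans (h2 n)).trans ?_)
    rw [sum_add_distrib, ← mul_sum, ← mul_sum]
    have h3 : ∑ n ∈ range N, Gw τ η n * psi φ n ^ 2 ≤ θ * En τ η φ N := by
      have h4 : ∑ n ∈ range N, Gw τ η n * psi φ n ^ 2 ≤
          ∑ n ∈ range (N + 1), Gw τ η n * psi φ n ^ 2 :=
        sum_le_sum_of_subset_of_nonneg (range_subset_range.2 (by omega)) fun n _ _ =>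
          mul_nonneg (hG n).le (sq_nonneg _)
      refine h4.trans ?_
      rw [sum_range_succ']
      simp only [psi]
      have h5 := mul_le_mul_of_nonneg_left (sumG_le h φ N) hθ.le
      refine le_trans ?_ h5
      rw [mul_sum]
      have h6 : ∀ n, Gw τ η (n + 1) * φ n ^ 2 ≤ θ * (Gw τ η n * φ n ^ 2) := by
        intro n
        rw [← mul_assoc]
        exact mul_le_mul_of_nonneg_right (G_succ_le h.t0 h.e0 h.e1 n) (sq_nonneg _)
      have h7 := sum_le_sum fun n (_ : n ∈ range N) => h6 n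
      simp only [ne_eq, OfNat.ofNat_ne_zero, not_false_eq_true, zero_pow, mul_zero, add_zero]
      exact h7
    have h4 := mul_le_mul_of_nonneg_left h3 (by linarith : (0 : ℝ) ≤ κ / 2)
    have h5 : ∑ n ∈ range N, Gw τ η n * (φ n ^ 2 + φ (n + 1) ^ 2) = En τ η φ N := rfl
    rw [h5]
    linarith
  · refine (h1 N).trans ?_
    have h3 := Y_N hY
    have h4 := Y_N1 h.q0 h.q1 hY
    have h5 := Y_psiN h.q0 h.q1 hY
    have h6 : |φ N| * (|φ (N + 1)| + |psi φ N|) ≤ Y * (2 * (q⁻¹ * Y)) :=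
      mul_le_mul h3 (by linarith) (add_nonneg (abs_nonneg _) (abs_nonneg _)) hY0
    have h7 : Gw τ η N ≤ 3 * Fw τ η N := by
      unfold Gw
      exact mul_le_mul_of_nonneg_right (h.e3 N) (hF N).le
    have h8 : 0 ≤ Y * (2 * (q⁻¹ * Y)) :=
      mul_nonneg hY0 (mul_nonneg two_pos.le (mul_nonneg (inv_nonneg.2 h.q0.le) hY0))
    calc _ ≤ κ * ((3 * Fw τ η N) * (Y * (2 * (q⁻¹ * Y)))) :=
          mul_le_mul_of_nonneg_left (mul_le_mul h7 h6
            (mul_nonneg (abs_nonneg _) (add_nonneg (abs_nonneg _) (abs_nonneg _)))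
            (mul_nonneg (by norm_num) (hF N).le)) hk.le
      _ = _ := by ring

/-- the energy identity -/
theorem energy (τ : ℝ) (η : ℕ → ℝ) (c : ℝ) (φ f : ℕ → ℝ)
    (hf : ∀ n, φ (n + 1) + psi φ n = 2 * c * φ n + f n) (N : ℕ) :
    φ 0 ^ 2 + ∑ n ∈ range N, τ * Gw τ η n * (φ (n + 1) ^ 2 + φ n ^ 2 - 2 * c * φ n * φ (n + 1)) =
      Fw τ η N * (φ (N + 1) ^ 2 + φ N ^ 2 - 2 * c * φ N * φ (N + 1)) -
        ∑ n ∈ range (N + 1), Fw τ η n * f n * (φ (n + 1) - psi φ n) := by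
  induction N with
  | zero =>
    have h0 := hf 0
    simp only [psi, range_zero, sum_empty, add_zero, F_zero, range_one, sum_singleton, sub_zero,
      zero_add] at h0 ⊢
    have : f 0 = φ 1 - 2 * c * φ 0 := by linarith
    rw [this]
    ring
  | succ N ih =>
    rw [sum_range_succ, ← add_assoc, ih, sum_range_succ _ (N + 1), F_succ]
    have h0 := hf (N + 1)
    simp only [psi] at h0 ⊢
    have : f (N + 1) = φ (N + 1 + 1) + φ N - 2 * c * φ (N + 1) := by linarith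
    rw [this]
    ring

end Pool.Agent.Helper34.PG
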